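import Pool.Agent.H551.GD.Sound

/-!
# Completeness of the reduction
-/

namespace Pool.Agent.H551.GD

open Pool.Agent.NPC

/-- The dominating set of an assignment. -/
def Ch (τ : ℕ → Bool) (L E w : ℕ) : Prop :=
  (w < E ∧ (τ (w / L) = true ∧ w % L % 3 = 1 ∨ τ (w / L) = false ∧ w % L % 3 = 2)) ∨
    (E ≤ w ∧ (w - E) % 4 < 2)

instance (τ : ℕ → Bool) (L E : ℕ) : DecidablePred (Ch τ L E) := fun w => by
  unfold Ch
  infer_instance

variable {τ : ℕ → Bool} {L E : ℕ}

theorem ch_q0 (b : ℕ) : Ch τ L E (E + 4 * b) := Or.inr ⟨by omega, by omega⟩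

theorem ch_q1 (b : ℕ) : Ch τ L E (E + 4 * b + 1) := Or.inr ⟨by omega, by omega⟩

theorem not_ch_q2 (b : ℕ) : ¬ Ch τ L E (E + 4 * b + 2) := by
  rintro (⟨h, -⟩ | ⟨-, h⟩) <;> omega

theorem not_ch_q3 (b : ℕ) : ¬ Ch τ L E (E + 4 * b + 3) := by
  rintro (⟨h, -⟩ | ⟨-, h⟩) <;> omega

theorem ch_run {V x p : ℕ} (hE : E = V * L) (hx : x < V) (hp : p < L) :
    Ch τ L E (x * L + p) ↔ (τ x = true ∧ p % 3 = 1 ∨ τ x = false ∧ p % 3 = 2) := by
  have h1 := run_lt hE hx hp
  have h2 : (x * L + p) / L = x := by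
    rw [mul_comm, Nat.mul_add_div (by omega), Nat.div_eq_of_lt hp, add_zero]
  have h3 : (x * L + p) % L = p := by
    rw [mul_comm, Nat.mul_add_mod, Nat.mod_eq_of_lt hp]
  unfold Ch
  rw [h2, h3]
  constructor
  · rintro (⟨-, h⟩ | ⟨h, -⟩)
    · exact h
    · omega
  · intro h
    exact Or.inl ⟨h1, h⟩

theorem card_filter_fin (n : ℕ) (P : ℕ → Prop) [DecidablePred P] :
    (Finset.univ.filter (fun v : Fin n => P v)).card =
      ∑ w ∈ Finset.range n, (if P w then 1 else 0) := by
  rw [Finset.card_filter, Finset.sum_range]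

theorem card_ch {V N T : ℕ} (hL : L = 3 * (2 * T) + 1) (hE : E = V * L) :
    (Finset.univ.filter (fun v : Fin (E + 4 * N) => Ch τ L E v)).card = 2 * N + V * (2 * T) := by
  rw [card_filter_fin, decomp _ hL hE]
  have h1 : ∀ x ∈ Finset.range V, ∑ i ∈ Finset.range (2 * T),
      ((if Ch τ L E (x * L + 3 * i) then 1 else 0) +
        (if Ch τ L E (x * L + 3 * i + 1) then 1 else 0) +
        (if Ch τ L E (x * L + 3 * i + 2) then 1 else 0)) +
      (if Ch τ L E (x * L + 6 * T) then 1 else 0) = 2 * T := by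
    intro x hx
    have hx' := Finset.mem_range.1 hx
    have h2 : ∀ i ∈ Finset.range (2 * T),
        ((if Ch τ L E (x * L + 3 * i) then 1 else 0) +
        (if Ch τ L E (x * L + 3 * i + 1) then 1 else 0) +
        (if Ch τ L E (x * L + 3 * i + 2) then 1 else 0)) = 1 := by
      intro i hi
      have hi' := Finset.mem_range.1 hi
      have e1 : x * L + 3 * i + 1 = x * L + (3 * i + 1) := by ring
      have e2 : x * L + 3 * i + 2 = x * L + (3 * i + 2) := by ring
      rw [e1, e2]
      simp only [ch_run hE hx' (show 3 * i < L by omega), ch_run hE hx' (show 3 * i + 1 < L by omega),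
        ch_run hE hx' (show 3 * i + 2 < L by omega)]
      have m0 : 3 * i % 3 = 0 := by omega
      have m1 : (3 * i + 1) % 3 = 1 := by omega
      have m2 : (3 * i + 2) % 3 = 2 := by omega
      rw [m0, m1, m2]
      cases τ x <;> simp
    have h3 : ¬ Ch τ L E (x * L + 6 * T) := by
      rw [ch_run hE hx' (by omega)]
      omega
    rw [Finset.sum_congr rfl h2, if_neg h3]
    simp
  have h2 : ∀ b ∈ Finset.range N, ((if Ch τ L E (E + 4 * b) then 1 else 0) +
      (if Ch τ L E (E + 4 * b + 1) then 1 else 0) + (if Ch τ L E (E + 4 * b + 2) then 1 else 0) +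
      (if Ch τ L E (E + 4 * b + 3) then 1 else 0)) = 2 := by
    intro b _
    rw [if_pos (ch_q0 b), if_pos (ch_q1 b), if_neg (not_ch_q2 b), if_neg (not_ch_q3 b)]
  rw [Finset.sum_congr rfl h1, Finset.sum_congr rfl h2]
  simp only [Finset.sum_const, Finset.card_range, smul_eq_mul]
  omega

/-! ### Domination -/

/-- `v` is in `D` or next to an entry in `D` of the list `l`. -/
def DomV (D : ℕ → Prop) (l : List ℕ) (v : ℕ) : Prop :=
  D v ∨ ∃ u, D u ∧ (nxt l u v ∨ nxt l v u)

theorem DomV.ofSub {D : ℕ → Prop} {l l' : List ℕ} {v : ℕ} (h : DomV D l v) (hl : l <:+: l') :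
    DomV D l' v := by
  rcases h with h | ⟨u, hu, h | h⟩
  · exact Or.inl h
  · exact Or.inr ⟨u, hu, Or.inl (nxt_infix hl h)⟩
  · exact Or.inr ⟨u, hu, Or.inr (nxt_infix hl h)⟩

theorem domL_blkA (b : ℕ) : DomL (Ch τ L E) (blkA E b) := by
  intro v hv
  simp only [blkA, List.mem_cons, List.not_mem_nil, or_false] at hv
  rcases hv with rfl | rfl | rfl | rfl
  · exact Or.inl (ch_q0 b)
  · exact Or.inr ⟨_, ch_q0 b, Or.inl (by simp [blkA, nxt_cons_cons])⟩
  · exact Or.inr ⟨_, ch_q1 b, Or.inr (by simp [blkA, nxt_cons_cons])⟩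
  · exact Or.inl (ch_q1 b)

theorem domL_blkB (b : ℕ) : DomL (Ch τ L E) (blkB E b) := by
  intro v hv
  simp only [blkB, List.mem_cons, List.not_mem_nil, or_false] at hv
  rcases hv with rfl | rfl | rfl | rfl
  · exact Or.inr ⟨_, ch_q0 b, Or.inr (by simp [blkB, nxt_cons_cons])⟩
  · exact Or.inl (ch_q0 b)
  · exact Or.inl (ch_q1 b)
  · exact Or.inr ⟨_, ch_q1 b, Or.inl (by simp [blkB, nxt_cons_cons])⟩

theorem domL_blkC (b : ℕ) : DomL (Ch τ L E) (blkC E b) := by
  intro v hv
  simp only [blkC, List.mem_cons, List.not_mem_nil, or_false] at hv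
  rcases hv with rfl | rfl | rfl | rfl
  · exact Or.inr ⟨_, ch_q0 b, Or.inr (by simp [blkC, nxt_cons_cons])⟩
  · exact Or.inl (ch_q0 b)
  · exact Or.inl (ch_q1 b)
  · exact Or.inr ⟨_, ch_q1 b, Or.inl (by simp [blkC, nxt_cons_cons])⟩

theorem domL_blkD (b : ℕ) : DomL (Ch τ L E) (blkD E b) := by
  intro v hv
  simp only [blkD, List.mem_cons, List.not_mem_nil, or_false] at hv
  rcases hv with rfl | rfl | rfl | rfl
  · exact Or.inl (ch_q1 b)
  · exact Or.inr ⟨_, ch_q1 b, Or.inl (by simp [blkD, nxt_cons_cons])⟩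
  · exact Or.inr ⟨_, ch_q0 b, Or.inr (by simp [blkD, nxt_cons_cons])⟩
  · exact Or.inl (ch_q0 b)

theorem domL_of_domV {D : ℕ → Prop} {l : List ℕ} (h : ∀ v ∈ l, DomV D l v) : DomL D l := h

theorem dom_path1 {V T R : ℕ} (hL : L = 3 * (2 * T) + 1) (hE : E = V * L) :
    DomL (Ch τ L E) (path1 V L E R) := by
  unfold path1
  refine DomL.append (DomL.flatMap fun x hx => ?_) (DomL.flatMap fun b _ => domL_blkB _)
  refine domL_of_domV fun v hv => ?_
  rw [List.mem_append, List.mem_append] at hv
  rcases hv with hv | hv | hv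
  · exact DomV.ofSub (domL_blkA _ v hv) (infix_left List.infix_rfl)
  · unfold run at hv
    rw [List.mem_map] at hv
    obtain ⟨p, hp, rfl⟩ := hv
    have hp' := List.mem_range.1 hp
    have hrun : run L x <:+: blkA E (2 * x) ++ (run L x ++ blkA E (2 * x + 1)) :=
      infix_right (infix_left List.infix_rfl)
    have prev : 0 < p → Ch τ L E (x * L + (p - 1)) →
        DomV (Ch τ L E) (blkA E (2 * x) ++ (run L x ++ blkA E (2 * x + 1))) (x * L + p) :=
      fun h0 h => Or.inr ⟨_, h, Or.inl (nxt_infix hrun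
        (nxt_run.2 ⟨p - 1, by omega, rfl, by omega⟩))⟩
    have next : p + 1 < L → Ch τ L E (x * L + (p + 1)) →
        DomV (Ch τ L E) (blkA E (2 * x) ++ (run L x ++ blkA E (2 * x + 1))) (x * L + p) :=
      fun h0 h => Or.inr ⟨_, h, Or.inr (nxt_infix hrun
        (nxt_run.2 ⟨p, by omega, rfl, by omega⟩))⟩
    cases hx2 : τ x with
    | true =>
      by_cases h1 : p % 3 = 1
      · left
        rw [ch_run hE hx hp']
        exact Or.inl ⟨hx2, h1⟩
      by_cases h2 : p % 3 = 2
      · refine prev (by omega) ?_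
        rw [ch_run hE hx (by omega)]
        exact Or.inl ⟨hx2, by omega⟩
      by_cases h3 : p + 1 < L
      · refine next h3 ?_
        rw [ch_run hE hx h3]
        exact Or.inl ⟨hx2, by omega⟩
      · refine Or.inr ⟨_, ch_q0 (2 * x + 1), Or.inr ?_⟩
        rw [nxt_append, nxt_append]
        refine Or.inr (Or.inl (Or.inr (Or.inr ⟨?_, head_blkA _ _⟩)))
        rw [last_run (by omega)]
        congr 2
        omega
    | false =>
      by_cases h1 : p % 3 = 2
      · left
        rw [ch_run hE hx hp']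
        exact Or.inr ⟨hx2, h1⟩
      by_cases h2 : p % 3 = 1
      · refine next (by omega) ?_
        rw [ch_run hE hx (by omega)]
        exact Or.inr ⟨hx2, by omega⟩
      by_cases h3 : 0 < p
      · refine prev h3 ?_
        rw [ch_run hE hx (by omega)]
        exact Or.inr ⟨hx2, by omega⟩
      · obtain rfl : p = 0 := by omega
        refine Or.inr ⟨_, ch_q1 (2 * x), Or.inl ?_⟩
        rw [nxt_append]
        refine Or.inr (Or.inr ⟨last_blkA _ _, ?_⟩)
        rw [List.head?_append, head_run (by omega)]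
        rfl
  · exact DomV.ofSub (domL_blkA _ v hv) (infix_right (infix_right List.infix_rfl))

theorem dom_path2 {V m T R : ℕ} {vr : ℕ → ℕ} {sg : ℕ → Bool} {isl : ℕ → Bool}
    (hT : T = 3 * m) (hL : L = 3 * (2 * T) + 1) (hE : E = V * L) (hvr : ∀ s < T, vr s < V)
    (hτ : ∀ c < m, ∃ r < 3, τ (vr (3 * c + r)) = sg (3 * c + r)) :
    DomL (Ch τ L E) (path2 V m E R (lit T L vr sg) isl) := by
  unfold path2
  refine DomL.append (DomL.flatMap fun b _ => domL_blkC b) (DomL.append (DomL.flatMap ?_)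
    (DomL.append (DomL.flatMap fun r _ => ?_) (DomL.flatMap fun b _ => domL_blkD _)))
  · intro c hc
    refine domL_of_domV fun v hv => ?_
    rw [List.mem_append, List.mem_append] at hv
    rcases hv with hv | hv | hv
    · exact DomV.ofSub (domL_blkD _ v hv) (infix_left List.infix_rfl)
    · simp only [List.mem_cons, List.not_mem_nil, or_false] at hv
      rcases hv with rfl | rfl | rfl
      · refine Or.inr ⟨_, ch_q0 (2 * V + 2 * c), Or.inl ?_⟩
        rw [nxt_append]
        exact Or.inr (Or.inr ⟨last_blkD _ _, rfl⟩)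
      · have key : ∀ s < T, τ (vr s) = sg s → Ch τ L E (lit T L vr sg s) := by
          intro s hs h
          unfold lit
          rw [ch_run hE (hvr s hs) (by split_ifs <;> omega), h]
          cases sg s with
          | true =>
            left
            rw [if_pos rfl]
            exact ⟨rfl, by omega⟩
          | false =>
            right
            rw [if_neg (by simp)]
            exact ⟨rfl, by omega⟩
        obtain ⟨r, hr, h⟩ := hτ c hc
        have h2 := key _ (by omega) h
        have hin : [lit T L vr sg (3 * c), lit T L vr sg (3 * c + 1), lit T L vr sg (3 * c + 2)] <:+: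
            blkD E (2 * V + 2 * c) ++ ([lit T L vr sg (3 * c), lit T L vr sg (3 * c + 1),
              lit T L vr sg (3 * c + 2)] ++ blkD E (2 * V + 2 * c + 1)) :=
          infix_right (infix_left List.infix_rfl)
        have : r = 0 ∨ r = 1 ∨ r = 2 := by omega
        rcases this with rfl | rfl | rfl
        · exact Or.inr ⟨_, h2, Or.inl (nxt_infix hin (by simp [nxt_cons_cons]))⟩
        · exact Or.inl h2
        · exact Or.inr ⟨_, h2, Or.inr (nxt_infix hin (by simp [nxt_cons_cons]))⟩
      · refine Or.inr ⟨_, ch_q1 (2 * V + 2 * c + 1), Or.inr ?_⟩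
        rw [nxt_append, nxt_append]
        exact Or.inr (Or.inl (Or.inr (Or.inr ⟨rfl, head_blkD _ _⟩)))
    · exact DomV.ofSub (domL_blkD _ v hv) (infix_right (infix_right List.infix_rfl))
  · refine domL_of_domV fun v hv => ?_
    rw [List.mem_append] at hv
    rcases hv with hv | hv
    · exact DomV.ofSub (domL_blkD _ v hv) (infix_left List.infix_rfl)
    · split_ifs at hv with h
      · simp at hv
      · rw [List.mem_singleton] at hv
        subst hv
        refine Or.inr ⟨_, ch_q0 (2 * V + 2 * m + v), Or.inl ?_⟩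
        rw [nxt_append, if_neg h]
        exact Or.inr (Or.inr ⟨last_blkD _ _, rfl⟩)

theorem dom_path3 {N B i : ℕ} : DomL (Ch τ L E) (path3 E N B i) := by
  unfold path3
  refine DomL.flatMap fun b _ => ?_
  refine domL_of_domV fun v hv => ?_
  rw [List.mem_append] at hv
  rcases hv with hv | hv
  · refine DomV.ofSub (l := [E + 4 * wr N (b + (i + 2)) + 2, E + 4 * b,
      E + 4 * wr N (b + (i + 2)) + 3, E + 4 * b + 1]) ?_ (infix_left List.infix_rfl)
    simp only [List.mem_cons, List.not_mem_nil, or_false] at hv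
    rcases hv with rfl | rfl | rfl | rfl
    · exact Or.inr ⟨_, ch_q0 b, Or.inr (by simp [nxt_cons_cons])⟩
    · exact Or.inl (ch_q0 b)
    · exact Or.inr ⟨_, ch_q0 b, Or.inl (by simp [nxt_cons_cons])⟩
    · exact Or.inl (ch_q1 b)
  · split_ifs at hv with h
    · rw [List.mem_singleton] at hv
      subst hv
      refine Or.inr ⟨_, ch_q1 b, Or.inl ?_⟩
      rw [nxt_append, if_pos h]
      exact Or.inr (Or.inr ⟨rfl, rfl⟩)
    · simp at hv

end Pool.Agent.H551.GD
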