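import Pool.Agent.H551.GD.Defs

/-!
# The paths of the reduction

The vertices are the elements `0, ..., E - 1`, where the run of the variable `x` consists of
`x L, ..., x L + L - 1`, and the blocks of four vertices `E + 4 b + a`, `a < 4`, `b < N`. The
vertices with `a < 2` are always taken.
-/

namespace Pool.Agent.H551.GD

open Pool.Agent.NPC

/-- the run of the variable `x` -/
def run (L x : ℕ) : List ℕ := (List.range L).map (fun p => x * L + p)

/-- a block of the first kind on the first path -/
def blkA (E b : ℕ) : List ℕ := [E + 4 * b, E + 4 * b + 2, E + 4 * b + 3, E + 4 * b + 1]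

/-- a block of the second kind on the first path -/
def blkB (E b : ℕ) : List ℕ := [E + 4 * b + 2, E + 4 * b, E + 4 * b + 1, E + 4 * b + 3]

/-- a block of the first kind on the second path -/
def blkC (E b : ℕ) : List ℕ := [E + 4 * b + 3, E + 4 * b, E + 4 * b + 1, E + 4 * b + 2]

/-- a block of the second kind on the second path -/
def blkD (E b : ℕ) : List ℕ := [E + 4 * b + 1, E + 4 * b + 2, E + 4 * b + 3, E + 4 * b]

/-- The first path: each run lies between two blocks of the first kind. -/
def path1 (V L E R : ℕ) : List ℕ :=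
  (List.range V).flatMap (fun x => blkA E (2 * x) ++ (run L x ++ blkA E (2 * x + 1))) ++
    (List.range R).flatMap (fun b => blkB E (2 * V + b))

/-- The element of the literal number `s`. -/
def lit (T L : ℕ) (vr : ℕ → ℕ) (sg : ℕ → Bool) (s : ℕ) : ℕ :=
  vr s * L + (if sg s = true then 3 * s + 1 else 3 * (T + s) + 2)

/-- The second path: the clauses and the elements that are not literals lie between blocks of the
second kind. -/
def path2 (V m E R : ℕ) (lt : ℕ → ℕ) (isl : ℕ → Bool) : List ℕ :=
  (List.range (2 * V)).flatMap (blkC E) ++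
    ((List.range m).flatMap (fun c => blkD E (2 * V + 2 * c) ++
      ([lt (3 * c), lt (3 * c + 1), lt (3 * c + 2)] ++ blkD E (2 * V + 2 * c + 1))) ++
    ((List.range E).flatMap (fun r => blkD E (2 * V + 2 * m + r) ++
      (if isl r = true then [] else [r])) ++
    (List.range R).flatMap (fun b => blkD E (2 * V + 2 * m + E + b))))

/-- Reduction modulo `N` of a number less than `2 N`. -/
def wr (N x : ℕ) : ℕ := if x < N then x else x - N

/-- The other paths. -/
def path3 (E N B i : ℕ) : List ℕ :=
  (List.range N).flatMap (fun b => [E + 4 * wr N (b + (i + 2)) + 2, E + 4 * b,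
    E + 4 * wr N (b + (i + 2)) + 3, E + 4 * b + 1] ++
      (if B + 1 + i ≤ b ∧ b < B + 1 + i + E then [b - (B + 1 + i)] else []))

theorem wr_spec {N x : ℕ} (h : x < 2 * N) : wr N x < N ∧ (wr N x = x ∨ wr N x + N = x) := by
  unfold wr
  split_ifs <;> omega

theorem length_flatMap_range (f : ℕ → List ℕ) (n : ℕ) :
    ((List.range n).flatMap f).length = ∑ b ∈ Finset.range n, (f b).length := by
  induction n with
  | zero => simp
  | succ n ih =>
    rw [List.range_succ, List.flatMap_append, List.flatMap_singleton, List.length_append, ih,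
      Finset.sum_range_succ]

theorem mem_flatMap_range {f : ℕ → List ℕ} {n w : ℕ} (b : ℕ) (hb : b < n) (h : w ∈ f b) :
    w ∈ (List.range n).flatMap f :=
  List.mem_flatMap.2 ⟨b, List.mem_range.2 hb, h⟩

theorem perm_range_of {l : List ℕ} {n : ℕ} (hl : l.length = n) (h : ∀ w < n, w ∈ l) :
    l.Perm (List.range n) := by
  have h1 : (List.range n).Subperm l :=
    List.nodup_range.subperm (fun v hv => h v (by simpa using hv))
  exact (h1.perm_of_length_le (by simp [hl])).symm

/-! ### The first path -/

theorem path1_perm {V L E R : ℕ} (hL : 0 < L) (hE : E = V * L) :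
    (path1 V L E R).Perm (List.range (E + 4 * (2 * V + R))) := by
  refine perm_range_of ?_ ?_
  · unfold path1
    rw [List.length_append, length_flatMap_range, length_flatMap_range]
    simp only [List.length_append, blkA, blkB, run, List.length_map, List.length_range,
      List.length_cons, List.length_nil, Finset.sum_const, Finset.card_range, smul_eq_mul]
    rw [hE]
    ring
  · intro w hw
    unfold path1
    rw [List.mem_append]
    by_cases h1 : w < E
    · left
      have hx : w / L < V := by rw [Nat.div_lt_iff_lt_mul hL, ← hE]; exact h1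
      refine mem_flatMap_range (w / L) hx ?_
      rw [List.mem_append, List.mem_append]
      right; left
      unfold run
      rw [List.mem_map]
      exact ⟨w % L, List.mem_range.2 (Nat.mod_lt _ hL), Nat.div_add_mod' w L⟩
    · by_cases h2 : (w - E) / 4 < 2 * V
      · left
        refine mem_flatMap_range ((w - E) / 4 / 2) (by omega) ?_
        simp only [List.mem_append, blkA, List.mem_cons, List.not_mem_nil, or_false]
        omega
      · right
        refine mem_flatMap_range ((w - E) / 4 - 2 * V) (by omega) ?_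
        simp only [blkB, List.mem_cons, List.not_mem_nil, or_false]
        omega

/-- The edges of the first path. -/
inductive Ed1 (V E u v : ℕ) : Prop
  | ee (h : v < E) (h' : v = u + 1)
  | qe (b : ℕ) (hb : b < 2 * V) (h : u = E + 4 * b + 1) (h' : v < E)
  | eq (b : ℕ) (hb : b < 2 * V) (h : u < E) (h' : v = E + 4 * b)
  | a1 (b : ℕ) (hb : b < 2 * V) (h : u = E + 4 * b) (h' : v = E + 4 * b + 2)
  | a2 (b : ℕ) (hb : b < 2 * V) (h : u = E + 4 * b + 2) (h' : v = E + 4 * b + 3)
  | a3 (b : ℕ) (hb : b < 2 * V) (h : u = E + 4 * b + 3) (h' : v = E + 4 * b + 1)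
  | a4 (b : ℕ) (hb : b < 2 * V) (h : u = E + 4 * b + 1)
      (h' : v = E + 4 * (b + 1) ∨ v = E + 4 * (b + 1) + 2)
  | b1 (b : ℕ) (hb : 2 * V ≤ b) (h : u = E + 4 * b + 2) (h' : v = E + 4 * b)
  | b2 (b : ℕ) (hb : 2 * V ≤ b) (h : u = E + 4 * b) (h' : v = E + 4 * b + 1)
  | b3 (b : ℕ) (hb : 2 * V ≤ b) (h : u = E + 4 * b + 1) (h' : v = E + 4 * b + 3)
  | b4 (b : ℕ) (hb : 2 * V ≤ b) (h : u = E + 4 * b + 3) (h' : v = E + 4 * (b + 1) + 2)

theorem nxt_blkA {V E b u v : ℕ} (hb : b < 2 * V) (h : nxt (blkA E b) u v) : Ed1 V E u v := by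
  simp only [blkA, nxt_cons_cons, nxt_single, or_false] at h
  rcases h with ⟨rfl, rfl⟩ | ⟨rfl, rfl⟩ | ⟨rfl, rfl⟩
  · exact .a1 b hb rfl rfl
  · exact .a2 b hb rfl rfl
  · exact .a3 b hb rfl rfl

theorem nxt_blkB {V E b u v : ℕ} (hb : 2 * V ≤ b) (h : nxt (blkB E b) u v) : Ed1 V E u v := by
  simp only [blkB, nxt_cons_cons, nxt_single, or_false] at h
  rcases h with ⟨rfl, rfl⟩ | ⟨rfl, rfl⟩ | ⟨rfl, rfl⟩
  · exact .b1 b hb rfl rfl
  · exact .b2 b hb rfl rfl
  · exact .b3 b hb rfl rfl

theorem head_blkA (E b : ℕ) : (blkA E b).head? = some (E + 4 * b) := rfl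
theorem last_blkA (E b : ℕ) : (blkA E b).getLast? = some (E + 4 * b + 1) := rfl
theorem head_blkB (E b : ℕ) : (blkB E b).head? = some (E + 4 * b + 2) := rfl
theorem last_blkB (E b : ℕ) : (blkB E b).getLast? = some (E + 4 * b + 3) := rfl
theorem head_blkC (E b : ℕ) : (blkC E b).head? = some (E + 4 * b + 3) := rfl
theorem last_blkC (E b : ℕ) : (blkC E b).getLast? = some (E + 4 * b + 2) := rfl
theorem head_blkD (E b : ℕ) : (blkD E b).head? = some (E + 4 * b + 1) := rfl
theorem last_blkD (E b : ℕ) : (blkD E b).getLast? = some (E + 4 * b) := rfl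
theorem blkA_ne (E b : ℕ) : blkA E b ≠ [] := by simp [blkA]
theorem blkB_ne (E b : ℕ) : blkB E b ≠ [] := by simp [blkB]
theorem blkC_ne (E b : ℕ) : blkC E b ≠ [] := by simp [blkC]
theorem blkD_ne (E b : ℕ) : blkD E b ≠ [] := by simp [blkD]

theorem nxt_run {L x u v : ℕ} : nxt (run L x) u v ↔ ∃ p, p + 1 < L ∧ u = x * L + p ∧
    v = x * L + p + 1 := by
  rw [nxt_iff_getElem?]
  unfold run
  constructor
  · rintro ⟨i, h1, h2⟩
    rw [List.getElem?_map] at h1 h2
    have hi : i + 1 < L := by
      by_contra hc
      rw [List.getElem?_eq_none (by simpa using hc)] at h2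
      simp at h2
    rw [List.getElem?_range (by omega)] at h1
    rw [List.getElem?_range (by omega)] at h2
    simp only [Option.map_some, Option.some.injEq] at h1 h2
    exact ⟨i, hi, h1.symm, by omega⟩
  · rintro ⟨p, hp, rfl, rfl⟩
    refine ⟨p, ?_, ?_⟩
    · rw [List.getElem?_map, List.getElem?_range (by omega)]
      rfl
    · rw [List.getElem?_map, List.getElem?_range (by omega)]
      rfl

theorem run_ne_nil {L x : ℕ} (hL : 0 < L) : run L x ≠ [] := by
  unfold run
  intro h
  have := congrArg List.length h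
  simp at this
  omega

theorem head_run {L x : ℕ} (hL : 0 < L) : (run L x).head? = some (x * L) := by
  obtain ⟨k, rfl⟩ : ∃ k, L = k + 1 := ⟨L - 1, by omega⟩
  unfold run
  rw [List.range_succ_eq_map]
  simp

theorem last_run {L x : ℕ} (hL : 0 < L) : (run L x).getLast? = some (x * L + (L - 1)) := by
  obtain ⟨k, rfl⟩ : ∃ k, L = k + 1 := ⟨L - 1, by omega⟩
  unfold run
  rw [List.range_succ, List.map_append]
  simp

theorem run_lt {V L E x p : ℕ} (hE : E = V * L) (hx : x < V) (hp : p < L) : x * L + p < E := by
  have h1 : (x + 1) * L ≤ V * L := Nat.mul_le_mul_right L hx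
  rw [hE]
  calc x * L + p < x * L + L := by omega
    _ = (x + 1) * L := by ring
    _ ≤ V * L := h1

theorem path1_nxt {V L E R u v : ℕ} (hL : 0 < L) (hE : E = V * L)
    (h : nxt (path1 V L E R) u v) : Ed1 V E u v := by
  have hlast : ∀ x, (blkA E (2 * x) ++ (run L x ++ blkA E (2 * x + 1))).getLast? =
      some (E + 4 * (2 * x + 1) + 1) := by
    intro x
    rw [List.getLast?_append_of_ne_nil _ (by simp [blkA]),
      List.getLast?_append_of_ne_nil _ (blkA_ne _ _)]
    rfl
  unfold path1 at h
  rw [nxt_append] at h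
  rcases h with h | h | ⟨h1, h2⟩
  · rcases nxt_flatMap (fun b _ => by simp [blkA]) h with ⟨x, hx, h⟩ | ⟨x, hx, h1, h2⟩
    · have e1 := run_lt hE hx (show 0 < L from hL)
      have e2 := run_lt hE hx (show L - 1 < L by omega)
      rw [nxt_append, nxt_append, nxt_run] at h
      rcases h with h | (⟨p, hp, h1, h2⟩ | h | ⟨h1, h2⟩) | ⟨h1, h2⟩
      · exact nxt_blkA (by omega) h
      · have e3 := run_lt hE hx hp
        exact .ee (by omega) (by omega)
      · exact nxt_blkA (by omega) h
      · rw [last_run hL] at h1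
        rw [head_blkA] at h2
        simp only [Option.some.injEq] at h1 h2
        exact .eq (2 * x + 1) (by omega) (by omega) h2.symm
      · rw [List.head?_append, head_run hL] at h2
        rw [last_blkA] at h1
        simp only [Option.some.injEq, Option.some_or] at h1 h2
        exact .qe (2 * x) (by omega) h1.symm (by omega)
    · rw [hlast] at h1
      rw [List.head?_append, head_blkA] at h2
      simp only [Option.some.injEq, Option.some_or] at h1 h2
      exact .a4 (2 * x + 1) (by omega) h1.symm (Or.inl (by omega))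
  · rcases nxt_flatMap (fun b _ => blkB_ne _ _) h with ⟨x, hx, h⟩ | ⟨x, hx, h1, h2⟩
    · exact nxt_blkB (by omega) h
    · rw [last_blkB] at h1
      rw [head_blkB] at h2
      simp only [Option.some.injEq] at h1 h2
      exact .b4 (2 * V + x) (by omega) h1.symm (by omega)
  · rcases Nat.eq_zero_or_pos V with h0 | hV
    · subst h0
      simp at h1
    rcases Nat.eq_zero_or_pos R with h0 | hR
    · subst h0
      simp at h2
    obtain ⟨x, rfl⟩ : ∃ x, V = x + 1 := ⟨V - 1, by omega⟩
    rw [getLast?_flatMap (by simp [blkA]), hlast] at h1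
    rw [head?_flatMap (f := fun b => blkB E (2 * (x + 1) + b)) hR (blkB_ne _ _), head_blkB] at h2
    simp only [Option.some.injEq] at h1 h2
    exact .a4 (2 * x + 1) (by omega) h1.symm (Or.inr (by omega))

/-! ### The second path -/

/-- The edges of the second path. -/
inductive Ed2 (V B E u v : ℕ) : Prop
  | ee (h : u < E) (h' : v < E) (h1 : v ≠ u + 1) (h2 : u ≠ v + 1)
  | qe (b : ℕ) (hb : 2 * V ≤ b) (hb' : b ≤ B) (h : u = E + 4 * b) (h' : v < E)
  | eq (b : ℕ) (hb : 2 * V ≤ b) (hb' : b ≤ B) (h : u < E) (h' : v = E + 4 * b + 1)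
  | c1 (b : ℕ) (hb : b < 2 * V) (h : u = E + 4 * b + 3) (h' : v = E + 4 * b)
  | c2 (b : ℕ) (hb : b < 2 * V) (h : u = E + 4 * b) (h' : v = E + 4 * b + 1)
  | c3 (b : ℕ) (hb : b < 2 * V) (h : u = E + 4 * b + 1) (h' : v = E + 4 * b + 2)
  | c4 (b : ℕ) (hb : b < 2 * V) (h : u = E + 4 * b + 2)
      (h' : v = E + 4 * (b + 1) + 3 ∨ v = E + 4 * (b + 1) + 1)
  | d1 (b : ℕ) (hb : 2 * V ≤ b) (h : u = E + 4 * b + 1) (h' : v = E + 4 * b + 2)
  | d2 (b : ℕ) (hb : 2 * V ≤ b) (h : u = E + 4 * b + 2) (h' : v = E + 4 * b + 3)
  | d3 (b : ℕ) (hb : 2 * V ≤ b) (h : u = E + 4 * b + 3) (h' : v = E + 4 * b)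
  | d4 (b : ℕ) (hb : 2 * V ≤ b) (h : u = E + 4 * b) (h' : v = E + 4 * (b + 1) + 1)

theorem nxt_blkC {V B E b u v : ℕ} (hb : b < 2 * V) (h : nxt (blkC E b) u v) : Ed2 V B E u v := by
  simp only [blkC, nxt_cons_cons, nxt_single, or_false] at h
  rcases h with ⟨rfl, rfl⟩ | ⟨rfl, rfl⟩ | ⟨rfl, rfl⟩
  · exact .c1 b hb rfl rfl
  · exact .c2 b hb rfl rfl
  · exact .c3 b hb rfl rfl

theorem nxt_blkD {V B E b u v : ℕ} (hb : 2 * V ≤ b) (h : nxt (blkD E b) u v) : Ed2 V B E u v := by
  simp only [blkD, nxt_cons_cons, nxt_single, or_false] at h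
  rcases h with ⟨rfl, rfl⟩ | ⟨rfl, rfl⟩ | ⟨rfl, rfl⟩
  · exact .d1 b hb rfl rfl
  · exact .d2 b hb rfl rfl
  · exact .d3 b hb rfl rfl

theorem path2_nxt {V m E R : ℕ} {lt : ℕ → ℕ} {isl : ℕ → Bool} {u v : ℕ} (hE : 0 < E)
    (hm : 0 < m) (hR : 0 < R) (h1 : ∀ s < 3 * m, lt s < E)
    (h2 : ∀ s < 3 * m, ∀ s' < 3 * m, lt s' ≠ lt s + 1)
    (h : nxt (path2 V m E R lt isl) u v) : Ed2 V (2 * V + 2 * m + E) E u v := by
  unfold path2 at h
  rw [nxt_append, nxt_append, nxt_append] at h
  rcases h with h | (h | (h | h | ⟨g1, g2⟩) | ⟨g1, g2⟩) | ⟨g1, g2⟩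
  · rcases nxt_flatMap (fun b _ => blkC_ne _ _) h with ⟨x, hx, h⟩ | ⟨x, hx, g1, g2⟩
    · exact nxt_blkC hx h
    · rw [last_blkC] at g1
      rw [head_blkC] at g2
      simp only [Option.some.injEq] at g1 g2
      exact .c4 x (by omega) g1.symm (Or.inl g2.symm)
  · rcases nxt_flatMap (fun b _ => by simp [blkD]) h with ⟨x, hx, h⟩ | ⟨x, hx, g1, g2⟩
    · rw [nxt_append, nxt_append] at h
      rcases h with h | (h | h | ⟨g1, g2⟩) | ⟨g1, g2⟩
      · exact nxt_blkD (by omega) h
      · simp only [nxt_cons_cons, nxt_single, or_false] at h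
        rcases h with ⟨rfl, rfl⟩ | ⟨rfl, rfl⟩
        · exact .ee (h1 _ (by omega)) (h1 _ (by omega)) (h2 _ (by omega) _ (by omega))
            (h2 _ (by omega) _ (by omega))
        · exact .ee (h1 _ (by omega)) (h1 _ (by omega)) (h2 _ (by omega) _ (by omega))
            (h2 _ (by omega) _ (by omega))
      · exact nxt_blkD (by omega) h
      · simp only [List.getLast?_cons_cons, List.getLast?_singleton, Option.some.injEq] at g1
        rw [head_blkD, Option.some.injEq] at g2
        have := h1 (3 * x + 2) (by omega)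
        exact .eq (2 * V + 2 * x + 1) (by omega) (by omega) (by omega) g2.symm
      · rw [last_blkD] at g1
        simp only [List.cons_append, List.head?_cons, Option.some.injEq] at g1 g2
        have := h1 (3 * x) (by omega)
        exact .qe (2 * V + 2 * x) (by omega) (by omega) g1.symm (by omega)
    · have e : (blkD E (2 * V + 2 * x) ++ ([lt (3 * x), lt (3 * x + 1), lt (3 * x + 2)] ++
          blkD E (2 * V + 2 * x + 1))).getLast? = some (E + 4 * (2 * V + 2 * x + 1)) := by
        rw [List.getLast?_append_of_ne_nil _ (by simp [blkD]),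
          List.getLast?_append_of_ne_nil _ (blkD_ne _ _)]
        rfl
      rw [e, Option.some.injEq] at g1
      rw [List.head?_append, head_blkD, Option.some_or, Option.some.injEq] at g2
      exact .d4 (2 * V + 2 * x + 1) (by omega) g1.symm (by omega)
  · rcases nxt_flatMap (fun b _ => by simp [blkD]) h with ⟨x, hx, h⟩ | ⟨x, hx, g1, g2⟩
    · rw [nxt_append] at h
      rcases h with h | h | ⟨g1, g2⟩
      · exact nxt_blkD (by omega) h
      · split_ifs at h
        · exact (nxt_nil _ _ h).elim
        · exact (nxt_single _ _ _ h).elim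
      · split_ifs at g2
        · simp at g2
        · rw [last_blkD] at g1
          simp only [List.head?_cons, Option.some.injEq] at g1 g2
          exact .qe (2 * V + 2 * m + x) (by omega) (by omega) g1.symm (by omega)
    · rw [List.head?_append, head_blkD, Option.some_or, Option.some.injEq] at g2
      split_ifs at g1
      · rw [List.append_nil, last_blkD, Option.some.injEq] at g1
        exact .d4 (2 * V + 2 * m + x) (by omega) g1.symm (by omega)
      · rw [List.getLast?_append_of_ne_nil _ (by simp), List.getLast?_singleton,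
          Option.some.injEq] at g1
        exact .eq (2 * V + 2 * m + (x + 1)) (by omega) (by omega) (by omega) g2.symm
  · rcases nxt_flatMap (fun b _ => blkD_ne _ _) h with ⟨x, hx, h⟩ | ⟨x, hx, g1, g2⟩
    · exact nxt_blkD (by omega) h
    · rw [last_blkD, Option.some.injEq] at g1
      rw [head_blkD, Option.some.injEq] at g2
      exact .d4 (2 * V + 2 * m + E + x) (by omega) g1.symm (by omega)
  · rw [head?_flatMap (f := fun b => blkD E (2 * V + 2 * m + E + b)) hR (blkD_ne _ _),
      head_blkD, Option.some.injEq] at g2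
    obtain ⟨e, rfl⟩ : ∃ e, E = e + 1 := ⟨E - 1, by omega⟩
    rw [getLast?_flatMap (by simp [blkD])] at g1
    split_ifs at g1
    · rw [List.append_nil, last_blkD, Option.some.injEq] at g1
      exact .d4 (2 * V + 2 * m + e) (by omega) g1.symm (by omega)
    · rw [List.getLast?_append_of_ne_nil _ (by simp), List.getLast?_singleton,
        Option.some.injEq] at g1
      exact .eq (2 * V + 2 * m + (e + 1)) (by omega) (by omega) (by omega) (by omega)
  · rw [List.head?_append, head?_flatMap (f := fun r => blkD E (2 * V + 2 * m + r) ++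
      (if isl r = true then [] else [r])) hE (by simp [blkD]), List.head?_append, head_blkD,
      Option.some_or, Option.some_or, Option.some.injEq] at g2
    obtain ⟨x, rfl⟩ : ∃ x, m = x + 1 := ⟨m - 1, by omega⟩
    have e : (blkD E (2 * V + 2 * x) ++ ([lt (3 * x), lt (3 * x + 1), lt (3 * x + 2)] ++
        blkD E (2 * V + 2 * x + 1))).getLast? = some (E + 4 * (2 * V + 2 * x + 1)) := by
      rw [List.getLast?_append_of_ne_nil _ (by simp [blkD]),
        List.getLast?_append_of_ne_nil _ (blkD_ne _ _)]
      rfl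
    rw [getLast?_flatMap (by simp [blkD]), e, Option.some.injEq] at g1
    exact .d4 (2 * V + 2 * x + 1) (by omega) g1.symm (by omega)
  · rw [List.head?_append, head?_flatMap (f := fun c => blkD E (2 * V + 2 * c) ++
      ([lt (3 * c), lt (3 * c + 1), lt (3 * c + 2)] ++ blkD E (2 * V + 2 * c + 1))) hm
      (by simp [blkD]), List.head?_append, head_blkD, Option.some_or, Option.some_or,
      Option.some.injEq] at g2
    rcases Nat.eq_zero_or_pos V with h0 | hV
    · subst h0
      simp at g1
    obtain ⟨x, hx⟩ : ∃ x, 2 * V = x + 1 := ⟨2 * V - 1, by omega⟩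
    rw [hx, getLast?_flatMap (blkC_ne _ _), last_blkC, Option.some.injEq] at g1
    exact .c4 x (by omega) g1.symm (Or.inr (by omega))

theorem path2_perm {V m E R : ℕ} {lt : ℕ → ℕ} {isl : ℕ → Bool} (h1 : ∀ s < 3 * m, lt s < E)
    (hinj : ∀ s < 3 * m, ∀ s' < 3 * m, lt s = lt s' → s = s')
    (hisl : ∀ r, isl r = true ↔ ∃ s < 3 * m, lt s = r) :
    (path2 V m E R lt isl).Perm (List.range (E + 4 * (2 * V + (2 * m + E + R)))) := by
  have hcount : ∑ r ∈ Finset.range E, (if isl r = true then 1 else 0) = 3 * m := by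
    rw [← Finset.card_filter]
    have e : (Finset.range E).filter (fun r => isl r = true) = (Finset.range (3 * m)).image lt := by
      ext r
      simp only [Finset.mem_filter, Finset.mem_range, Finset.mem_image, hisl]
      constructor
      · rintro ⟨_, h⟩
        exact h
      · rintro ⟨s, hs, rfl⟩
        exact ⟨h1 s hs, s, hs, rfl⟩
    rw [e, Finset.card_image_of_injOn, Finset.card_range]
    intro s hs s' hs' h
    exact hinj s (by simpa using hs) s' (by simpa using hs') h
  have hsum : ∑ r ∈ Finset.range E, (blkD E (2 * V + 2 * m + r) ++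
      (if isl r = true then [] else [r])).length + 3 * m = 5 * E := by
    rw [← hcount, ← Finset.sum_add_distrib]
    have : ∀ r ∈ Finset.range E, (blkD E (2 * V + 2 * m + r) ++
        (if isl r = true then [] else [r])).length + (if isl r = true then 1 else 0) = 5 := by
      intro r _
      split_ifs <;> simp [blkD]
    rw [Finset.sum_congr rfl this]
    simp [mul_comm]
  refine perm_range_of ?_ ?_
  · unfold path2
    rw [List.length_append, List.length_append, List.length_append, length_flatMap_range,
      length_flatMap_range, length_flatMap_range, length_flatMap_range]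
    have e1 : ∑ b ∈ Finset.range (2 * V), (blkC E b).length = 2 * V * 4 := by simp [blkC]
    have e2 : ∑ c ∈ Finset.range m, (blkD E (2 * V + 2 * c) ++ ([lt (3 * c), lt (3 * c + 1),
        lt (3 * c + 2)] ++ blkD E (2 * V + 2 * c + 1))).length = m * 11 := by simp [blkD]
    have e3 : ∑ b ∈ Finset.range R, (blkD E (2 * V + 2 * m + E + b)).length = R * 4 := by
      simp [blkD]
    rw [e1, e2, e3]
    omega
  · intro w hw
    unfold path2
    rw [List.mem_append, List.mem_append, List.mem_append]
    by_cases hE : w < E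
    · by_cases hl : isl w = true
      · obtain ⟨s, hs, rfl⟩ := (hisl w).1 hl
        right; left
        refine mem_flatMap_range (s / 3) (by omega) ?_
        have : s = 3 * (s / 3) ∨ s = 3 * (s / 3) + 1 ∨ s = 3 * (s / 3) + 2 := by omega
        simp only [List.mem_append, List.mem_cons, List.not_mem_nil, or_false]
        rcases this with h | h | h
        · exact Or.inr (Or.inl (Or.inl (congrArg lt h)))
        · exact Or.inr (Or.inl (Or.inr (Or.inl (congrArg lt h))))
        · exact Or.inr (Or.inl (Or.inr (Or.inr (congrArg lt h))))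
      · right; right; left
        refine mem_flatMap_range w hE ?_
        rw [if_neg hl]
        simp
    · obtain ⟨b, a, ha, rfl⟩ : ∃ b a, a < 4 ∧ w = E + 4 * b + a :=
        ⟨(w - E) / 4, (w - E) % 4, Nat.mod_lt _ (by omega), by omega⟩
      have hC : E + 4 * b + a ∈ blkC E b := by
        simp only [blkC, List.mem_cons, List.not_mem_nil, or_false]
        omega
      have hD : E + 4 * b + a ∈ blkD E b := by
        simp only [blkD, List.mem_cons, List.not_mem_nil, or_false]
        omega
      by_cases h2 : b < 2 * V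
      · left
        exact mem_flatMap_range b h2 hC
      by_cases h3 : b < 2 * V + 2 * m
      · right; left
        refine mem_flatMap_range ((b - 2 * V) / 2) (by omega) ?_
        have : b = 2 * V + 2 * ((b - 2 * V) / 2) ∨ b = 2 * V + 2 * ((b - 2 * V) / 2) + 1 := by
          omega
        rw [List.mem_append, List.mem_append]
        rcases this with h | h
        · left
          rw [← h]
          exact hD
        · right; right
          rw [← h]
          exact hD
      by_cases h4 : b < 2 * V + 2 * m + E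
      · right; right; left
        refine mem_flatMap_range (b - (2 * V + 2 * m)) (by omega) ?_
        rw [List.mem_append]
        left
        have e : 2 * V + 2 * m + (b - (2 * V + 2 * m)) = b := by omega
        rw [e]
        exact hD
      · right; right; right
        refine mem_flatMap_range (b - (2 * V + 2 * m + E)) (by omega) ?_
        have e : 2 * V + 2 * m + E + (b - (2 * V + 2 * m + E)) = b := by omega
        rw [e]
        exact hD

/-! ### The other paths -/

/-- The edges of the other paths. -/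
inductive Ed3 (E N B i u v : ℕ) : Prop
  | f1 (b c : ℕ) (hb : b < N) (hc : c < N) (h0 : c = b + i + 2 ∨ c + N = b + i + 2)
      (h : u = E + 4 * c + 2) (h' : v = E + 4 * b)
  | f2 (b c : ℕ) (hb : b < N) (hc : c < N) (h0 : c = b + i + 2 ∨ c + N = b + i + 2)
      (h : u = E + 4 * b) (h' : v = E + 4 * c + 3)
  | f3 (b c : ℕ) (hb : b < N) (hc : c < N) (h0 : c = b + i + 2 ∨ c + N = b + i + 2)
      (h : u = E + 4 * c + 3) (h' : v = E + 4 * b + 1)
  | f4 (b c : ℕ) (hb : b + 1 < N) (hc : c < N) (h0 : c = b + i + 3 ∨ c + N = b + i + 3)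
      (h : u = E + 4 * b + 1) (h' : v = E + 4 * c + 2)
  | qe (h : u = E + 4 * (B + 1 + i + v) + 1) (h' : v < E)
  | eq (c : ℕ) (hc : c < N) (h0 : c = B + 1 + i + u + i + 3 ∨ c + N = B + 1 + i + u + i + 3)
      (h : u < E) (h' : v = E + 4 * c + 2)

theorem path3_perm {E N B i : ℕ} (hN : B + 1 + i + E ≤ N) (hi : i + 3 ≤ N) :
    (path3 E N B i).Perm (List.range (E + 4 * N)) := by
  have hcount : ∀ n, ∑ b ∈ Finset.range n,
      (if B + 1 + i ≤ b ∧ b < B + 1 + i + E then 1 else 0) =
        min n (B + 1 + i + E) - min n (B + 1 + i) := by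
    intro n
    induction n with
    | zero => simp
    | succ n ih =>
      rw [Finset.sum_range_succ, ih]
      split_ifs <;> omega
  refine perm_range_of ?_ ?_
  · unfold path3
    rw [length_flatMap_range]
    have : ∀ b ∈ Finset.range N, ([E + 4 * wr N (b + (i + 2)) + 2, E + 4 * b,
        E + 4 * wr N (b + (i + 2)) + 3, E + 4 * b + 1] ++
        (if B + 1 + i ≤ b ∧ b < B + 1 + i + E then [b - (B + 1 + i)] else [])).length =
        4 + (if B + 1 + i ≤ b ∧ b < B + 1 + i + E then 1 else 0) := by
      intro b _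
      split_ifs <;> simp
    rw [Finset.sum_congr rfl this, Finset.sum_add_distrib, hcount]
    simp only [Finset.sum_const, Finset.card_range, smul_eq_mul]
    omega
  · intro w hw
    unfold path3
    by_cases hE : w < E
    · refine mem_flatMap_range (B + 1 + i + w) (by omega) ?_
      rw [if_pos ⟨by omega, by omega⟩, List.mem_append]
      right
      simp
    · obtain ⟨b, a, ha, rfl⟩ : ∃ b a, a < 4 ∧ w = E + 4 * b + a :=
        ⟨(w - E) / 4, (w - E) % 4, Nat.mod_lt _ (by omega), by omega⟩
      have hb : b < N := by omega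
      obtain ⟨c, hc, hcb⟩ : ∃ c < N, wr N (c + (i + 2)) = b := by
        by_cases h : i + 2 ≤ b
        · refine ⟨b - (i + 2), by omega, ?_⟩
          unfold wr
          rw [if_pos (by omega)]
          omega
        · refine ⟨b + N - (i + 2), by omega, ?_⟩
          unfold wr
          rw [if_neg (by omega)]
          omega
      by_cases h : a < 2
      · refine mem_flatMap_range b hb ?_
        rw [List.mem_append]
        left
        simp only [List.mem_cons, List.not_mem_nil, or_false]
        omega
      · refine mem_flatMap_range c hc ?_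
        rw [hcb, List.mem_append]
        left
        simp only [List.mem_cons, List.not_mem_nil, or_false]
        omega

theorem path3_nxt {E N B i u v : ℕ} (hi : i + 3 ≤ N)
    (h : nxt (path3 E N B i) u v) : Ed3 E N B i u v := by
  unfold path3 at h
  rcases nxt_flatMap (fun b _ => by simp) h with ⟨b, hb, h⟩ | ⟨b, hb, g1, g2⟩
  · obtain ⟨hc, h0⟩ := wr_spec (N := N) (x := b + (i + 2)) (by omega)
    rw [nxt_append] at h
    rcases h with h | h | ⟨g1, g2⟩
    · simp only [nxt_cons_cons, nxt_single, or_false] at h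
      rcases h with ⟨rfl, rfl⟩ | ⟨rfl, rfl⟩ | ⟨rfl, rfl⟩
      · exact .f1 b _ hb hc (by omega) rfl rfl
      · exact .f2 b _ hb hc (by omega) rfl rfl
      · exact .f3 b _ hb hc (by omega) rfl rfl
    · split_ifs at h
      · exact (nxt_single _ _ _ h).elim
      · exact (nxt_nil _ _ h).elim
    · split_ifs at g2 with h3
      · simp only [List.head?_cons, Option.some.injEq, List.getLast?_cons_cons,
          List.getLast?_singleton] at g1 g2
        exact .qe (by omega) (by omega)
      · simp at g2
  · obtain ⟨hc, h0⟩ := wr_spec (N := N) (x := b + 1 + (i + 2)) (by omega)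
    simp only [List.cons_append, List.head?_cons, Option.some.injEq] at g2
    split_ifs at g1 with h3
    · rw [List.getLast?_append_of_ne_nil _ (by simp), List.getLast?_singleton,
        Option.some.injEq] at g1
      exact .eq _ hc (by omega) (by omega) g2.symm
    · simp only [List.append_nil, Option.some.injEq, List.getLast?_cons_cons,
          List.getLast?_singleton] at g1
      exact .f4 b _ hb hc (by omega) g1.symm g2.symm

/-! ### The paths are edge-disjoint -/

theorem disj12 {V B E u v : ℕ} (h1 : Ed1 V E u v) (h2 : Ed2 V B E u v ∨ Ed2 V B E v u) :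
    False := by
  rcases h2 with h2 | h2 <;> cases h1 <;> cases h2 <;> omega

theorem disj13 {V E N B i u v : ℕ} (hB : 2 * V ≤ B) (hi : i + 5 ≤ N) (h1 : Ed1 V E u v)
    (h2 : Ed3 E N B i u v ∨ Ed3 E N B i v u) : False := by
  rcases h2 with h2 | h2 <;> cases h1 <;> cases h2 <;> omega

theorem disj23 {V E N B i u v : ℕ} (hB : 2 * V ≤ B) (hi : i + 5 ≤ N) (h1 : Ed2 V B E u v)
    (h2 : Ed3 E N B i u v ∨ Ed3 E N B i v u) : False := by
  rcases h2 with h2 | h2 <;> cases h1 <;> cases h2 <;> omega

theorem disj33 {E N B i j u v : ℕ} (hij : i ≠ j) (hi : 2 * i + 5 ≤ N) (hj : 2 * j + 5 ≤ N)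
    (h1 : Ed3 E N B i u v) (h2 : Ed3 E N B j u v ∨ Ed3 E N B j v u) : False := by
  rcases h2 with h2 | h2 <;> cases h1 <;> cases h2 <;> omega

end Pool.Agent.H551.GD
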