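import Pool.Agent.NPC.Dec
import Pool.Agent.NPC.Sat2

/-!
# Global domination of factorings into Hamiltonian paths: definitions
-/

namespace Pool.Agent.H551.GD

open Pool.Agent.NPC

/-- `nxt P u v`: in the list `P` the entry `u` is immediately followed by the entry `v`. -/
def nxt : List ℕ → ℕ → ℕ → Prop
  | a :: b :: l, u, v => (a = u ∧ b = v) ∨ nxt (b :: l) u v
  | _, _, _ => False

/-- The factor given by a list `P` of vertices: the graph on `0, ..., n - 1` whose edges join the
consecutive entries of `P`. If `P` lists each vertex once, it is a Hamiltonian path. -/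
def factor (n : ℕ) (P : List ℕ) : SimpleGraph (Fin n) where
  Adj u v := u ≠ v ∧ (nxt P u v ∨ nxt P v u)
  symm := ⟨fun _ _ h => ⟨h.1.symm, h.2.symm⟩⟩
  loopless := ⟨fun _ h => h.1 rfl⟩

/-- `D` dominates `G`: every vertex outside `D` has a neighbour in `D`. -/
def Dominates {V : Type} (G : SimpleGraph V) (D : Finset V) : Prop :=
  ∀ v, v ∉ D → ∃ u ∈ D, G.Adj v u

/-- The decision problem `GD_k`: the input consists of `n`, a list of `k` lists `P` of vertices,
each of which lists the vertices `0, ..., n - 1` once (so that its factor is a Hamiltonian path),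
with pairwise edge-disjoint factors, and of a number `M`. The question is whether some vertex set
with at most `M` elements dominates all factors. -/
def GDk (k : ℕ) (x : ℕ × List (List ℕ) × ℕ) : Prop :=
  x.2.1.length = k ∧ (∀ P ∈ x.2.1, P.Perm (List.range x.1)) ∧
    x.2.1.Pairwise (fun P Q => ∀ u v, ¬ ((factor x.1 P).Adj u v ∧ (factor x.1 Q).Adj u v)) ∧
    ∃ D : Finset (Fin x.1), D.card ≤ x.2.2 ∧ ∀ P ∈ x.2.1, Dominates (factor x.1 P) D

/-! ### Consecutive entries -/

theorem nxt_cons_cons (a b : ℕ) (l : List ℕ) (u v : ℕ) :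
    nxt (a :: b :: l) u v ↔ (a = u ∧ b = v) ∨ nxt (b :: l) u v := Iff.rfl

theorem nxt_nil (u v : ℕ) : ¬ nxt [] u v := id

theorem nxt_single (a u v : ℕ) : ¬ nxt [a] u v := id

theorem nxt_append : ∀ (l l' : List ℕ) (u v : ℕ),
    nxt (l ++ l') u v ↔ nxt l u v ∨ nxt l' u v ∨ (l.getLast? = some u ∧ l'.head? = some v)
  | [], l', u, v => by simp [nxt_nil]
  | [a], [], u, v => by simp [nxt_nil]
  | [a], b :: l', u, v => by
    rw [List.singleton_append, nxt_cons_cons]
    simp only [nxt_single, false_or, List.getLast?_singleton, List.head?_cons, Option.some.injEq]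
    tauto
  | a :: b :: l, l', u, v => by
    have ih := nxt_append (b :: l) l' u v
    rw [List.cons_append, List.cons_append, nxt_cons_cons, nxt_cons_cons, or_assoc,
      ← List.cons_append, ih, List.getLast?_cons_cons]

theorem nxt_iff_getElem? : ∀ (l : List ℕ) (u v : ℕ),
    nxt l u v ↔ ∃ i, l[i]? = some u ∧ l[i + 1]? = some v
  | [], u, v => by simp [nxt_nil]
  | [a], u, v => by simp [nxt_single]
  | a :: b :: l, u, v => by
    rw [nxt_cons_cons, nxt_iff_getElem? (b :: l)]
    constructor
    · rintro (⟨rfl, rfl⟩ | ⟨i, h1, h2⟩)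
      · exact ⟨0, rfl, rfl⟩
      · exact ⟨i + 1, by simpa using h1, by simpa using h2⟩
    · rintro ⟨i, h1, h2⟩
      cases i with
      | zero =>
        left
        simpa using And.intro h1 h2
      | succ i => exact Or.inr ⟨i, by simpa using h1, by simpa using h2⟩

theorem nxt_mem_left : ∀ {l : List ℕ} {u v : ℕ}, nxt l u v → u ∈ l
  | [], _, _, h => (nxt_nil _ _ h).elim
  | [_], _, _, h => (nxt_single _ _ _ h).elim
  | a :: b :: l, u, v, h => by
    rcases h with ⟨rfl, -⟩ | h
    · simp
    · exact List.mem_cons_of_mem _ (nxt_mem_left h)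

theorem nxt_mem_right : ∀ {l : List ℕ} {u v : ℕ}, nxt l u v → v ∈ l
  | [], _, _, h => (nxt_nil _ _ h).elim
  | [_], _, _, h => (nxt_single _ _ _ h).elim
  | a :: b :: l, u, v, h => by
    rcases h with ⟨-, rfl⟩ | h
    · simp
    · exact List.mem_cons_of_mem _ (nxt_mem_right h)

/-- In a list without repetitions the predecessor is unique. -/
theorem nxt_pred_unique : ∀ {l : List ℕ} {u u' v : ℕ}, l.Nodup → nxt l u v → nxt l u' v → u = u'
  | [], _, _, _, _, h, _ => (nxt_nil _ _ h).elim
  | [_], _, _, _, _, h, _ => (nxt_single _ _ _ h).elim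
  | a :: b :: l, u, u', v, hn, h, h' => by
    have hb : b ∉ l := (List.nodup_cons.1 (List.nodup_cons.1 hn).2).1
    have key : ∀ w, nxt (b :: l) w b → False := by
      intro w hw
      cases l with
      | nil => exact nxt_single _ _ _ hw
      | cons c l =>
        rcases hw with ⟨-, rfl⟩ | hw
        · simp at hb
        · exact hb (nxt_mem_right hw)
    rcases h with ⟨e1, e2⟩ | h <;> rcases h' with ⟨e3, e4⟩ | h'
    · exact e1.symm.trans e3
    · rw [← e2] at h'
      exact (key _ h').elim
    · rw [← e4] at h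
      exact (key _ h).elim
    · exact nxt_pred_unique (List.nodup_cons.1 hn).2 h h'

/-- In a list without repetitions the successor is unique. -/
theorem nxt_succ_unique : ∀ {l : List ℕ} {u v v' : ℕ}, l.Nodup → nxt l u v → nxt l u v' → v = v'
  | [], _, _, _, _, h, _ => (nxt_nil _ _ h).elim
  | [_], _, _, _, _, h, _ => (nxt_single _ _ _ h).elim
  | a :: b :: l, u, v, v', hn, h, h' => by
    have ha : a ∉ b :: l := (List.nodup_cons.1 hn).1
    rcases h with ⟨e1, e2⟩ | h <;> rcases h' with ⟨e3, e4⟩ | h'
    · exact e2.symm.trans e4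
    · rw [← e1] at h'
      exact (ha (nxt_mem_left h')).elim
    · rw [← e3] at h
      exact (ha (nxt_mem_left h)).elim
    · exact nxt_succ_unique (List.nodup_cons.1 hn).2 h h'

theorem nxt_ne : ∀ {l : List ℕ} {u v : ℕ}, l.Nodup → nxt l u v → u ≠ v
  | [], _, _, _, h => (nxt_nil _ _ h).elim
  | [_], _, _, _, h => (nxt_single _ _ _ h).elim
  | a :: b :: l, u, v, hn, h => by
    rcases h with ⟨rfl, rfl⟩ | h
    · intro e
      subst e
      simp at hn
    · exact nxt_ne (List.nodup_cons.1 hn).2 h

/-- Consecutive entries of a sublist of consecutive entries. -/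
theorem nxt_infix {l l' : List ℕ} (h : l <:+: l') {u v : ℕ} (h1 : nxt l u v) : nxt l' u v := by
  obtain ⟨s, t, rfl⟩ := h
  rw [nxt_append, nxt_append]
  exact Or.inl (Or.inr (Or.inl h1))

theorem infix_flatMap {n : ℕ} {f : ℕ → List ℕ} {b : ℕ} (hb : b < n) :
    f b <:+: (List.range n).flatMap f := by
  induction n with
  | zero => omega
  | succ n ih =>
    rw [List.range_succ, List.flatMap_append, List.flatMap_singleton]
    rcases Nat.lt_succ_iff_lt_or_eq.1 hb with h | rfl
    · exact (ih h).trans (List.prefix_append _ _).isInfix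
    · exact (List.suffix_append _ _).isInfix

theorem nxt_flatMap {f : ℕ → List ℕ} {u v : ℕ} : ∀ {n : ℕ}, (∀ b < n, f b ≠ []) →
    nxt ((List.range n).flatMap f) u v → (∃ b < n, nxt (f b) u v) ∨
      ∃ b, b + 1 < n ∧ (f b).getLast? = some u ∧ (f (b + 1)).head? = some v := by
  intro n
  induction n with
  | zero => intro _ h; exact (nxt_nil _ _ h).elim
  | succ n ih =>
    intro hf h
    rw [List.range_succ, List.flatMap_append, List.flatMap_singleton, nxt_append] at h
    rcases h with h | h | ⟨h1, h2⟩
    · rcases ih (fun b hb => hf b (by omega)) h with ⟨b, hb, h⟩ | ⟨b, hb, h⟩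
      · exact Or.inl ⟨b, by omega, h⟩
      · exact Or.inr ⟨b, by omega, h⟩
    · exact Or.inl ⟨n, by omega, h⟩
    · cases n with
      | zero => simp at h1
      | succ n =>
        refine Or.inr ⟨n, by omega, ?_, h2⟩
        rw [List.range_succ, List.flatMap_append, List.flatMap_singleton,
          List.getLast?_append_of_ne_nil _ (hf n (by omega))] at h1
        exact h1

theorem head?_flatMap {f : ℕ → List ℕ} {n : ℕ} (hn : 0 < n) (hf : f 0 ≠ []) :
    ((List.range n).flatMap f).head? = (f 0).head? := by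
  obtain ⟨k, rfl⟩ : ∃ k, n = k + 1 := ⟨n - 1, by omega⟩
  rw [List.range_succ_eq_map, List.flatMap_cons, List.head?_append]
  cases h : f 0 with
  | nil => exact (hf h).elim
  | cons a l => simp

theorem getLast?_flatMap {f : ℕ → List ℕ} {n : ℕ} (hf : f n ≠ []) :
    ((List.range (n + 1)).flatMap f).getLast? = (f n).getLast? := by
  rw [List.range_succ, List.flatMap_append, List.flatMap_singleton,
    List.getLast?_append_of_ne_nil _ hf]

/-! ### Domination on lists -/

/-- Every entry of `l` is in `D` or is next to an entry in `D`. -/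
def DomL (D : ℕ → Prop) (l : List ℕ) : Prop :=
  ∀ v ∈ l, D v ∨ ∃ u, D u ∧ (nxt l u v ∨ nxt l v u)

theorem DomL.append {D : ℕ → Prop} {l l' : List ℕ} (h : DomL D l) (h' : DomL D l') :
    DomL D (l ++ l') := by
  intro v hv
  rcases List.mem_append.1 hv with hv | hv
  · rcases h v hv with h | ⟨u, hu, h⟩
    · exact Or.inl h
    · refine Or.inr ⟨u, hu, ?_⟩
      rw [nxt_append, nxt_append]
      rcases h with h | h
      · exact Or.inl (Or.inl h)
      · exact Or.inr (Or.inl h)
  · rcases h' v hv with h | ⟨u, hu, h⟩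
    · exact Or.inl h
    · refine Or.inr ⟨u, hu, ?_⟩
      rw [nxt_append, nxt_append]
      rcases h with h | h
      · exact Or.inl (Or.inr (Or.inl h))
      · exact Or.inr (Or.inr (Or.inl h))

theorem DomL.nil {D : ℕ → Prop} : DomL D [] := fun _ h => by simp at h

theorem DomL.flatMap {D : ℕ → Prop} {f : ℕ → List ℕ} : ∀ {n : ℕ}, (∀ b < n, DomL D (f b)) →
    DomL D ((List.range n).flatMap f) := by
  intro n
  induction n with
  | zero => intro _; exact DomL.nil
  | succ n ih =>
    intro h
    rw [List.range_succ, List.flatMap_append, List.flatMap_singleton]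
    exact (ih fun b hb => h b (by omega)).append (h n (by omega))

/-- From domination on the list to domination in the factor. -/
theorem DomL.dominates {n : ℕ} {P : List ℕ} {D : ℕ → Prop} [DecidablePred D]
    (hP : P.Perm (List.range n)) (h : DomL D P) :
    Dominates (factor n P) (Finset.univ.filter (fun v : Fin n => D v)) := by
  intro v hv
  have hnd : P.Nodup := hP.nodup_iff.2 List.nodup_range
  have hv' : ¬ D v := by simpa using hv
  have hm : (v : ℕ) ∈ P := hP.mem_iff.2 (List.mem_range.2 v.2)
  rcases h v hm with h | ⟨u, hu, h⟩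
  · exact (hv' h).elim
  · have hun : u < n := by
      have : u ∈ P := by
        rcases h with h | h
        · exact nxt_mem_left h
        · exact nxt_mem_right h
      exact List.mem_range.1 (hP.mem_iff.1 this)
    refine ⟨⟨u, hun⟩, by simpa using hu, ?_, ?_⟩
    · rintro rfl
      exact hv' hu
    · rcases h with h | h
      · exact Or.inr h
      · exact Or.inl h

/-- The window of a vertex in a dominated factor. -/
theorem window {n : ℕ} {P : List ℕ} {D : Finset (Fin n)} (hP : P.Perm (List.range n))
    (hD : Dominates (factor n P) D) {a b c : ℕ} (h1 : nxt P a b) (h2 : nxt P b c) :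
    ∃ u ∈ D, (u : ℕ) = a ∨ (u : ℕ) = b ∨ (u : ℕ) = c := by
  have hnd : P.Nodup := hP.nodup_iff.2 List.nodup_range
  have hb : b < n := List.mem_range.1 (hP.mem_iff.1 (nxt_mem_left h2))
  by_cases h : (⟨b, hb⟩ : Fin n) ∈ D
  · exact ⟨_, h, Or.inr (Or.inl rfl)⟩
  · obtain ⟨u, hu, -, h3⟩ := hD _ h
    refine ⟨u, hu, ?_⟩
    rcases h3 with h3 | h3
    · exact Or.inr (Or.inr (nxt_succ_unique hnd h3 h2))
    · exact Or.inl (nxt_pred_unique hnd h3 h1)

end Pool.Agent.H551.GD
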