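import Pool.Agent.H551.GD.Complete
import Pool.Agent.H420.Gr

/-!
# NP-hardness of the global domination problem for `k ≥ 2` Hamiltonian paths
-/

namespace Pool.Agent.H551.GD

open Pool.Agent.NPC Pool.Agent.H420.Gr

/-! ### The reduction -/

/-- length of a run for `m` clauses -/
def LL (m : ℕ) : ℕ := 3 * (2 * (3 * m)) + 1

/-- number of elements for `m` clauses -/
def EE (m : ℕ) : ℕ := 3 * m * LL m

/-- number of blocks after the leftover part -/
def RR (k m : ℕ) : ℕ := EE m + (2 * k + 3)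

/-- number of blocks -/
def NN (k m : ℕ) : ℕ := 2 * (3 * m) + (2 * m + EE m + RR k m)

/-- the literals for a formula -/
def lt' (φ : List (Lit ℕ × Lit ℕ × Lit ℕ)) (s : ℕ) : ℕ :=
  lit (3 * φ.length) (LL φ.length) (vr φ) (sg φ) s

/-- is the element a literal -/
def isl' (φ : List (Lit ℕ × Lit ℕ × Lit ℕ)) (r : ℕ) : Bool :=
  (List.range (3 * φ.length)).any (fun s => decide (lt' φ s = r))

/-- The reduction. -/
def red (k : ℕ) (φ : List (Lit ℕ × Lit ℕ × Lit ℕ)) : ℕ × List (List ℕ) × ℕ :=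
  (EE φ.length + 4 * NN k φ.length,
    path1 (3 * φ.length) (LL φ.length) (EE φ.length)
        (2 * φ.length + EE φ.length + RR k φ.length) ::
      path2 (3 * φ.length) φ.length (EE φ.length) (RR k φ.length) (lt' φ) (isl' φ) ::
      (List.range (k - 2)).map (path3 (EE φ.length) (NN k φ.length)
        (2 * (3 * φ.length) + 2 * φ.length + EE φ.length)),
    2 * NN k φ.length + 3 * φ.length * (2 * (3 * φ.length)))

section Lit

variable {V T L E : ℕ} {vr : ℕ → ℕ} {sg : ℕ → Bool}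

theorem lit_eq (s : ℕ) : ∃ p, lit T L vr sg s = vr s * L + p ∧
    (p = 3 * s + 1 ∨ p = 3 * (T + s) + 2) := by
  unfold lit
  split_ifs
  · exact ⟨_, rfl, Or.inl rfl⟩
  · exact ⟨_, rfl, Or.inr rfl⟩

theorem offset_eq {x y p q : ℕ} (hp : p < L) (hq : q < L) (h : x * L + p = y * L + q) : p = q := by
  have h1 := congrArg (· % L) h
  simp only [Nat.mul_add_mod', Nat.mod_eq_of_lt hp, Nat.mod_eq_of_lt hq] at h1
  exact h1

theorem lit_lt (hL : L = 3 * (2 * T) + 1) (hE : E = V * L) (hvr : ∀ s < T, vr s < V) {s : ℕ}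
    (hs : s < T) : lit T L vr sg s < E := by
  obtain ⟨p, h, hp⟩ := lit_eq (T := T) (L := L) (vr := vr) (sg := sg) s
  rw [h]
  exact run_lt hE (hvr s hs) (by omega)

theorem lit_inj (hL : L = 3 * (2 * T) + 1) {s s' : ℕ} (hs : s < T) (hs' : s' < T)
    (h : lit T L vr sg s = lit T L vr sg s') : s = s' := by
  obtain ⟨p, e, hp⟩ := lit_eq (T := T) (L := L) (vr := vr) (sg := sg) s
  obtain ⟨q, e', hq⟩ := lit_eq (T := T) (L := L) (vr := vr) (sg := sg) s'
  rw [e, e'] at h
  have := offset_eq (by omega) (by omega) h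
  omega

theorem lit_ne (hL : L = 3 * (2 * T) + 1) {s s' : ℕ} (hs : s < T) (hs' : s' < T) :
    lit T L vr sg s' ≠ lit T L vr sg s + 1 := by
  intro h
  obtain ⟨p, e, hp⟩ := lit_eq (T := T) (L := L) (vr := vr) (sg := sg) s
  obtain ⟨q, e', hq⟩ := lit_eq (T := T) (L := L) (vr := vr) (sg := sg) s'
  rw [e, e', add_assoc] at h
  have := offset_eq (by omega) (by omega) h
  omega

end Lit

/-- edge-disjointness from the descriptions of the edges -/
theorem disj_of {n : ℕ} {P Q : List ℕ} {A B : ℕ → ℕ → Prop} (hP : ∀ u v, nxt P u v → A u v)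
    (hQ : ∀ u v, nxt Q u v → B u v) (h : ∀ u v, A u v → (B u v ∨ B v u) → False) :
    ∀ u v, ¬ ((factor n P).Adj u v ∧ (factor n Q).Adj u v) := by
  rintro u v ⟨⟨-, h1⟩, ⟨-, h2⟩⟩
  have h3 : B u v ∨ B v u := h2.imp (hQ _ _) (hQ _ _)
  rcases h1 with h1 | h1
  · exact h _ _ (hP _ _ h1) h3
  · exact h _ _ (hP _ _ h1) h3.symm

theorem red_valid {k : ℕ} (hk : 2 ≤ k) {φ : List (Lit ℕ × Lit ℕ × Lit ℕ)} (hb : Bounded3 φ)
    (hne : φ ≠ []) : (red k φ).2.1.length = k ∧
      (∀ P ∈ (red k φ).2.1, P.Perm (List.range (red k φ).1)) ∧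
      (red k φ).2.1.Pairwise (fun P Q => ∀ u v,
        ¬ ((factor (red k φ).1 P).Adj u v ∧ (factor (red k φ).1 Q).Adj u v)) := by
  have hm : 0 < φ.length := List.length_pos_iff.2 hne
  have hvr : ∀ s < 3 * φ.length, vr φ s < 3 * φ.length := fun s hs => vr_lt hb hs
  have hLL : 0 < LL φ.length := by unfold LL; omega
  have hEE : 0 < EE φ.length := by
    unfold EE
    exact Nat.mul_pos (by omega) hLL
  have hRR : RR k φ.length = EE φ.length + (2 * k + 3) := rfl
  have hNN : NN k φ.length = 2 * (3 * φ.length) + (2 * φ.length + EE φ.length + RR k φ.length) :=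
    rfl
  have hlt : ∀ s < 3 * φ.length, lt' φ s < EE φ.length := fun s hs =>
    lit_lt rfl rfl hvr hs
  have hE1 : ∀ u v, nxt (path1 (3 * φ.length) (LL φ.length) (EE φ.length)
      (2 * φ.length + EE φ.length + RR k φ.length)) u v → Ed1 (3 * φ.length) (EE φ.length) u v :=
    fun u v h => path1_nxt hLL rfl h
  have hE2 : ∀ u v, nxt (path2 (3 * φ.length) φ.length (EE φ.length) (RR k φ.length) (lt' φ)
      (isl' φ)) u v → Ed2 (3 * φ.length) (2 * (3 * φ.length) + 2 * φ.length + EE φ.length)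
        (EE φ.length) u v :=
    fun u v h => path2_nxt hEE hm (by omega) hlt
      (fun s hs s' hs' => lit_ne rfl hs hs') h
  have hE3 : ∀ i < k - 2, ∀ u v, nxt (path3 (EE φ.length) (NN k φ.length)
      (2 * (3 * φ.length) + 2 * φ.length + EE φ.length) i) u v → Ed3 (EE φ.length)
        (NN k φ.length) (2 * (3 * φ.length) + 2 * φ.length + EE φ.length) i u v :=
    fun i hi u v h => path3_nxt (by omega) h
  refine ⟨?_, ?_, ?_⟩
  · simp only [red, List.length_cons, List.length_map, List.length_range]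
    omega
  · intro P hP
    simp only [red, List.mem_cons, List.mem_map, List.mem_range] at hP
    show P.Perm (List.range (EE φ.length + 4 * NN k φ.length))
    rcases hP with rfl | rfl | ⟨i, hi, rfl⟩
    · exact path1_perm hLL rfl
    · refine path2_perm hlt (fun s hs s' hs' h => lit_inj rfl hs hs' h) ?_
      intro r
      simp only [isl', List.any_eq_true, List.mem_range, decide_eq_true_eq]
    · exact path3_perm (by omega) (by omega)
  · simp only [red, List.pairwise_cons, List.mem_cons, List.mem_map, List.mem_range]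
    refine ⟨?_, ?_, ?_⟩
    · rintro Q (rfl | ⟨i, hi, rfl⟩)
      · exact disj_of hE1 hE2 (fun u v h1 h2 => disj12 h1 h2)
      · exact disj_of hE1 (hE3 i hi) (fun u v h1 h2 => disj13 (by omega) (by omega) h1 h2)
    · rintro Q ⟨i, hi, rfl⟩
      exact disj_of hE2 (hE3 i hi) (fun u v h1 h2 => disj23 (by omega) (by omega) h1 h2)
    · rw [List.pairwise_map]
      refine List.pairwise_lt_range.imp_of_mem ?_
      intro i j hi hj hij
      rw [List.mem_range] at hi hj
      exact disj_of (hE3 i hi) (hE3 j hj)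
        (fun u v h1 h2 => disj33 (by omega) (by omega) (by omega) h1 h2)

theorem red_iff {k : ℕ} (hk : 2 ≤ k) {φ : List (Lit ℕ × Lit ℕ × Lit ℕ)} (hb : Bounded3 φ)
    (hne : φ ≠ []) : SAT3 φ ↔ GDk k (red k φ) := by
  obtain ⟨v1, v2, v3⟩ := red_valid hk hb hne
  have hvr : ∀ s < 3 * φ.length, vr φ s < 3 * φ.length := fun s hs => vr_lt hb hs
  rw [sat_iff]
  constructor
  · rintro ⟨τ, hτ⟩
    refine ⟨v1, v2, v3, Finset.univ.filter (fun v : Fin (red k φ).1 =>
      Ch τ (LL φ.length) (EE φ.length) v), ?_, ?_⟩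
    · exact (card_ch (T := 3 * φ.length) (V := 3 * φ.length) (N := NN k φ.length) rfl rfl).le
    · intro P hP
      refine DomL.dominates (v2 P hP) ?_
      simp only [red, List.mem_cons, List.mem_map, List.mem_range] at hP
      rcases hP with rfl | rfl | ⟨i, hi, rfl⟩
      · exact dom_path1 (T := 3 * φ.length) rfl rfl
      · exact dom_path2 rfl rfl rfl hvr hτ
      · exact dom_path3
  · rintro ⟨-, -, -, D, hD, hdom⟩
    refine sound (m := φ.length) (V := 3 * φ.length) (T := 3 * φ.length) (L := LL φ.length)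
      (E := EE φ.length) (R := RR k φ.length) (n := (red k φ).1) (vr := vr φ) (sg := sg φ)
      (isl := isl' φ) rfl rfl rfl hvr rfl D (v2 _ ?_) (v2 _ ?_) (hdom _ ?_) (hdom _ ?_) hD
    · exact List.mem_cons_self
    · exact List.mem_cons_of_mem _ List.mem_cons_self
    · exact List.mem_cons_self
    · exact List.mem_cons_of_mem _ List.mem_cons_self

/-! ### The reduction is computable in polynomial time -/

section PolyRed

variable {α : Type} [TEnc α]

theorem poly_four {a b c d : α → ℕ} (ha : Poly a) (hb : Poly b) (hc : Poly c) (hd : Poly d) :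
    Poly (fun x => [a x, b x, c x, d x]) :=
  Poly.cons ha (Poly.cons hb (Poly.cons hc (Poly.cons hd (NPC.Poly.const _))))

theorem poly_q {E b : α → ℕ} (hE : Poly E) (hb : Poly b) : Poly (fun x => E x + 4 * b x) :=
  Poly.add hE (Poly.mul (NPC.Poly.const 4) hb)

theorem poly_qc {E b : α → ℕ} (hE : Poly E) (hb : Poly b) (c : ℕ) :
    Poly (fun x => E x + 4 * b x + c) :=
  Poly.add (poly_q hE hb) (NPC.Poly.const c)

theorem poly_blkA {E b : α → ℕ} (hE : Poly E) (hb : Poly b) : Poly (fun x => blkA (E x) (b x)) :=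
  poly_four (poly_q hE hb) (poly_qc hE hb 2) (poly_qc hE hb 3) (poly_qc hE hb 1)

theorem poly_blkB {E b : α → ℕ} (hE : Poly E) (hb : Poly b) : Poly (fun x => blkB (E x) (b x)) :=
  poly_four (poly_qc hE hb 2) (poly_q hE hb) (poly_qc hE hb 1) (poly_qc hE hb 3)

theorem poly_blkC {E b : α → ℕ} (hE : Poly E) (hb : Poly b) : Poly (fun x => blkC (E x) (b x)) :=
  poly_four (poly_qc hE hb 3) (poly_q hE hb) (poly_qc hE hb 1) (poly_qc hE hb 2)

theorem poly_blkD {E b : α → ℕ} (hE : Poly E) (hb : Poly b) : Poly (fun x => blkD (E x) (b x)) :=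
  poly_four (poly_qc hE hb 1) (poly_qc hE hb 2) (poly_qc hE hb 3) (poly_q hE hb)

theorem poly_run {L x : α → ℕ} (hL : UPoly L) (hx : Poly x) : Poly (fun a => run (L a) (x a)) := by
  unfold run
  refine NPC.Poly.map (F := fun a p => x a * L a + p) hL.range ?_
  exact Poly.add (Poly.mul (hx.comp (Poly.fst Poly.id)) (hL.toPoly.comp (Poly.fst Poly.id)))
    (Poly.snd Poly.id)

theorem poly_path1 {V L E R : α → ℕ} (hV : UPoly V) (hL : UPoly L) (hE : UPoly E)
    (hR : UPoly R) : Poly (fun a => path1 (V a) (L a) (E a) (R a)) := by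
  unfold path1
  have hx : Poly (fun p : α × ℕ => p.2) := Poly.snd Poly.id
  have ha : Poly (fun p : α × ℕ => p.1) := Poly.fst Poly.id
  refine Poly.append (Poly.flatMap (F := fun a x => blkA (E a) (2 * x) ++
    (run (L a) x ++ blkA (E a) (2 * x + 1))) hV.range ?_)
    (Poly.flatMap (F := fun a b => blkB (E a) (2 * V a + b)) hR.range ?_)
  · exact Poly.append (poly_blkA (hE.toPoly.comp ha) (Poly.mul (NPC.Poly.const 2) hx))
      (Poly.append (poly_run (hL.comp ha) hx) (poly_blkA (hE.toPoly.comp ha)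
        (Poly.add (Poly.mul (NPC.Poly.const 2) hx) (NPC.Poly.const 1))))
  · exact poly_blkB (hE.toPoly.comp ha)
      (Poly.add (Poly.mul (NPC.Poly.const 2) (hV.toPoly.comp ha)) hx)

theorem poly_path2 {V m E R : α → ℕ} {lt : α → ℕ → ℕ} {isl : α → ℕ → Bool} (hV : UPoly V)
    (hm : UPoly m) (hE : UPoly E) (hR : UPoly R) (hlt : Poly (fun p : α × ℕ => lt p.1 p.2))
    (hisl : Poly (fun p : α × ℕ => isl p.1 p.2)) :
    Poly (fun a => path2 (V a) (m a) (E a) (R a) (lt a) (isl a)) := by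
  unfold path2
  have hx : Poly (fun p : α × ℕ => p.2) := Poly.snd Poly.id
  have ha : Poly (fun p : α × ℕ => p.1) := Poly.fst Poly.id
  have hV2 : Poly (fun p : α × ℕ => 2 * V p.1) :=
    Poly.mul (NPC.Poly.const 2) (hV.toPoly.comp ha)
  have hm2 : Poly (fun p : α × ℕ => 2 * m p.1) :=
    Poly.mul (NPC.Poly.const 2) (hm.toPoly.comp ha)
  have hE' : Poly (fun p : α × ℕ => E p.1) := hE.toPoly.comp ha
  have h3 : Poly (fun p : α × ℕ => 3 * p.2) := Poly.mul (NPC.Poly.const 3) hx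
  have h2 : Poly (fun p : α × ℕ => 2 * p.2) := Poly.mul (NPC.Poly.const 2) hx
  refine Poly.append (Poly.flatMap (F := fun a b => blkC (E a) b)
    (UPoly.mul (UPoly.const 2) hV).range (poly_blkC hE' hx))
    (Poly.append (Poly.flatMap (F := fun a c => blkD (E a) (2 * V a + 2 * c) ++
      ([lt a (3 * c), lt a (3 * c + 1), lt a (3 * c + 2)] ++
        blkD (E a) (2 * V a + 2 * c + 1))) hm.range ?_)
    (Poly.append (Poly.flatMap (F := fun a r => blkD (E a) (2 * V a + 2 * m a + r) ++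
      (if isl a r = true then [] else [r])) hE.range ?_)
    (Poly.flatMap (F := fun a b => blkD (E a) (2 * V a + 2 * m a + E a + b)) hR.range ?_)))
  · refine Poly.append (poly_blkD hE' (Poly.add hV2 h2)) (Poly.append (Poly.cons ?_
      (Poly.cons ?_ (Poly.cons ?_ (NPC.Poly.const _))))
      (poly_blkD hE' (Poly.add (Poly.add hV2 h2) (NPC.Poly.const 1))))
    · exact hlt.comp (Poly.pair ha h3)
    · exact hlt.comp (Poly.pair ha (Poly.add h3 (NPC.Poly.const 1)))
    · exact hlt.comp (Poly.pair ha (Poly.add h3 (NPC.Poly.const 2)))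
  · refine Poly.append (poly_blkD hE' (Poly.add (Poly.add hV2 hm2) hx)) ?_
    exact Poly.ite (NPC.Poly.decide_bool hisl) (NPC.Poly.const _)
      (Poly.cons hx (NPC.Poly.const _))
  · exact poly_blkD hE' (Poly.add (Poly.add (Poly.add hV2 hm2) hE') hx)

theorem poly_wr {N x : α → ℕ} (hN : Poly N) (hx : Poly x) : Poly (fun a => wr (N a) (x a)) := by
  unfold wr
  exact Poly.ite (Poly.decide_lt hx hN) hx (Poly.sub hx hN)

theorem poly_path3 {N E B i : α → ℕ} (hE : Poly E) (hN : UPoly N) (hB : Poly B) (hi : Poly i) :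
    Poly (fun a => path3 (E a) (N a) (B a) (i a)) := by
  unfold path3
  have hx : Poly (fun p : α × ℕ => p.2) := Poly.snd Poly.id
  have ha : Poly (fun p : α × ℕ => p.1) := Poly.fst Poly.id
  have hE' : Poly (fun p : α × ℕ => E p.1) := hE.comp ha
  have hw : Poly (fun p : α × ℕ => wr (N p.1) (p.2 + (i p.1 + 2))) :=
    poly_wr (hN.toPoly.comp ha) (Poly.add hx (Poly.add (hi.comp ha) (NPC.Poly.const 2)))
  have hBi : Poly (fun p : α × ℕ => B p.1 + 1 + i p.1) :=
    Poly.add (Poly.add (hB.comp ha) (NPC.Poly.const 1)) (hi.comp ha)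
  refine Poly.flatMap (F := fun a b => [E a + 4 * wr (N a) (b + (i a + 2)) + 2, E a + 4 * b,
    E a + 4 * wr (N a) (b + (i a + 2)) + 3, E a + 4 * b + 1] ++
      (if B a + 1 + i a ≤ b ∧ b < B a + 1 + i a + E a then [b - (B a + 1 + i a)] else []))
    hN.range ?_
  refine Poly.append (poly_four (poly_qc hE' hw 2) (poly_q hE' hx) (poly_qc hE' hw 3)
    (poly_qc hE' hx 1)) ?_
  exact Poly.ite (NPC.Poly.decide_and (Poly.decide_le hBi hx)
    (Poly.decide_lt hx (Poly.add hBi hE'))) (Poly.cons (Poly.sub hx hBi) (NPC.Poly.const _))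
    (NPC.Poly.const _)

end PolyRed

theorem red_poly (k : ℕ) : Poly (red k) := by
  have hm : UPoly (fun φ : List (Lit ℕ × Lit ℕ × Lit ℕ) => φ.length) := UPoly.length Poly.id
  have h3 : UPoly (fun φ : List (Lit ℕ × Lit ℕ × Lit ℕ) => 3 * φ.length) :=
    UPoly.mul (UPoly.const 3) hm
  have h6 : UPoly (fun φ : List (Lit ℕ × Lit ℕ × Lit ℕ) => 2 * (3 * φ.length)) :=
    UPoly.mul (UPoly.const 2) h3
  have h2 : UPoly (fun φ : List (Lit ℕ × Lit ℕ × Lit ℕ) => 2 * φ.length) :=
    UPoly.mul (UPoly.const 2) hm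
  have hL : UPoly (fun φ : List (Lit ℕ × Lit ℕ × Lit ℕ) => LL φ.length) :=
    UPoly.add (UPoly.mul (UPoly.const 3) h6) (UPoly.const 1)
  have hE : UPoly (fun φ : List (Lit ℕ × Lit ℕ × Lit ℕ) => EE φ.length) := UPoly.mul h3 hL
  have hR : UPoly (fun φ : List (Lit ℕ × Lit ℕ × Lit ℕ) => RR k φ.length) :=
    UPoly.add hE (UPoly.const _)
  have hN : UPoly (fun φ : List (Lit ℕ × Lit ℕ × Lit ℕ) => NN k φ.length) :=
    UPoly.add h6 (UPoly.add (UPoly.add h2 hE) hR)
  have hlt : Poly (fun p : List (Lit ℕ × Lit ℕ × Lit ℕ) × ℕ => lt' p.1 p.2) := by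
    unfold lt' lit
    have hφ : Poly (fun p : List (Lit ℕ × Lit ℕ × Lit ℕ) × ℕ => p.1) := Poly.fst Poly.id
    have hs : Poly (fun p : List (Lit ℕ × Lit ℕ × Lit ℕ) × ℕ => p.2) := Poly.snd Poly.id
    exact Poly.add (Poly.mul (poly_vr hφ hs) (hL.toPoly.comp hφ))
      (Poly.ite (NPC.Poly.decide_bool (poly_sg hφ hs))
        (Poly.add (Poly.mul (NPC.Poly.const 3) hs) (NPC.Poly.const 1))
        (Poly.add (Poly.mul (NPC.Poly.const 3) (Poly.add (h3.toPoly.comp hφ) hs))
          (NPC.Poly.const 2)))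
  have hisl : Poly (fun p : List (Lit ℕ × Lit ℕ × Lit ℕ) × ℕ => isl' p.1 p.2) := by
    have hφ : Poly (fun p : List (Lit ℕ × Lit ℕ × Lit ℕ) × ℕ => p.1) := Poly.fst Poly.id
    have hr : Poly (fun p : List (Lit ℕ × Lit ℕ × Lit ℕ) × ℕ => List.range (3 * p.1.length)) :=
      UPoly.range (UPoly.comp (n := fun φ : List (Lit ℕ × Lit ℕ × Lit ℕ) => 3 * φ.length)
        (f := fun p : List (Lit ℕ × Lit ℕ × Lit ℕ) × ℕ => p.1) h3 hφ)
    have hq : Poly (fun x : (List (Lit ℕ × Lit ℕ × Lit ℕ) × ℕ) × ℕ => (x.1.1, x.2)) :=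
      Poly.pair (Poly.fst (Poly.fst Poly.id)) (Poly.snd Poly.id)
    have hl : Poly (fun x : (List (Lit ℕ × Lit ℕ × Lit ℕ) × ℕ) × ℕ => lt' x.1.1 x.2) :=
      Poly.comp (g := fun p : List (Lit ℕ × Lit ℕ × Lit ℕ) × ℕ => lt' p.1 p.2)
        (f := fun x : (List (Lit ℕ × Lit ℕ × Lit ℕ) × ℕ) × ℕ => (x.1.1, x.2)) hlt hq
    have hp : Poly (fun x : (List (Lit ℕ × Lit ℕ × Lit ℕ) × ℕ) × ℕ =>
        decide (lt' x.1.1 x.2 = x.1.2)) :=
      Poly.decide_eq hl (Poly.snd (Poly.fst Poly.id))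
    exact Poly.any (p := fun (p : List (Lit ℕ × Lit ℕ × Lit ℕ) × ℕ) s =>
      decide (lt' p.1 s = p.2)) hr hp
  have p1 : Poly (fun φ : List (Lit ℕ × Lit ℕ × Lit ℕ) => path1 (3 * φ.length) (LL φ.length)
      (EE φ.length) (2 * φ.length + EE φ.length + RR k φ.length)) :=
    poly_path1 h3 hL hE (UPoly.add (UPoly.add h2 hE) hR)
  have p2 : Poly (fun φ : List (Lit ℕ × Lit ℕ × Lit ℕ) => path2 (3 * φ.length) φ.length
      (EE φ.length) (RR k φ.length) (lt' φ) (isl' φ)) :=
    poly_path2 (lt := lt') (isl := isl') h3 hm hE hR hlt hisl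
  have p0 : Poly (fun φ : List (Lit ℕ × Lit ℕ × Lit ℕ) => EE φ.length + 4 * NN k φ.length) :=
    Poly.add hE.toPoly (Poly.mul (NPC.Poly.const 4) hN.toPoly)
  have p4 : Poly (fun φ : List (Lit ℕ × Lit ℕ × Lit ℕ) =>
      2 * NN k φ.length + 3 * φ.length * (2 * (3 * φ.length))) :=
    Poly.add (Poly.mul (NPC.Poly.const 2) hN.toPoly) (Poly.mul h3.toPoly h6.toPoly)
  unfold red
  refine Poly.pair p0 (Poly.pair (Poly.cons p1 (Poly.cons p2 ?_)) p4)
  refine NPC.Poly.map (F := fun (φ : List (Lit ℕ × Lit ℕ × Lit ℕ)) i =>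
    path3 (EE φ.length) (NN k φ.length) (2 * (3 * φ.length) + 2 * φ.length + EE φ.length) i)
    (UPoly.const (k - 2)).range ?_
  have hφ : Poly (fun p : List (Lit ℕ × Lit ℕ × Lit ℕ) × ℕ => p.1) := Poly.fst Poly.id
  exact poly_path3 (hE.toPoly.comp hφ) (hN.comp hφ)
    ((UPoly.add (UPoly.add h6 h2) hE).toPoly.comp hφ) (Poly.snd Poly.id)

/-- **NP-hardness** of the global domination problem for `k ≥ 2` Hamiltonian paths. -/
theorem npHard {k : ℕ} (hk : 2 ≤ k) : NPHardP (GDk k) :=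
  (HardPr.trans (Pr' := fun _ => True) hardPr_SAT3b (red_poly k) (fun _ _ => trivial)
    (Q := GDk k) (fun _ hφ => red_iff hk hφ.2.1 hφ.2.2)).toHardI.toNPHardP

end Pool.Agent.H551.GD
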