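import Pool.Agent.H551.GD.Defs

/-!
# Membership of the global domination problem in NP
-/

namespace Pool.Agent.H551.GD

open Pool.Agent.NPC

theorem nxt_iff_mem_zip : ∀ (l : List ℕ) (u v : ℕ), nxt l u v ↔ (u, v) ∈ l.zip l.tail
  | [], u, v => by simp [nxt_nil]
  | [a], u, v => by simp [nxt_single]
  | a :: b :: l, u, v => by
    rw [nxt_cons_cons, nxt_iff_mem_zip (b :: l)]
    simp only [List.tail_cons, List.zip_cons_cons, List.mem_cons, Prod.mk.injEq]
    tauto

/-- Test: `u` is immediately followed by `v`. -/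
def nxtB (P : List ℕ) (u v : ℕ) : Bool := decide ((u, v) ∈ P.zip P.tail)

theorem nxtB_iff {P : List ℕ} {u v : ℕ} : nxtB P u v = true ↔ nxt P u v := by
  unfold nxtB
  rw [decide_eq_true_eq, nxt_iff_mem_zip]

/-- Test: the list enumerates `0, ..., n - 1`. -/
def permB (n : ℕ) (l : List ℕ) : Bool :=
  decide (l.length = n) && (List.range l.length).all (fun v => decide (v ∈ l))

theorem permB_iff {n : ℕ} {l : List ℕ} : permB n l = true ↔ l.Perm (List.range n) := by
  unfold permB
  simp only [Bool.and_eq_true, decide_eq_true_eq, List.all_eq_true, List.mem_range]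
  constructor
  · rintro ⟨h, h'⟩
    have h1 : (List.range n).Subperm l :=
      List.nodup_range.subperm (fun v hv => h' v (by rw [h]; simpa using hv))
    exact (h1.perm_of_length_le (by simp [h])).symm
  · intro h
    have hlen : l.length = n := by simpa using h.length_eq
    refine ⟨hlen, fun v hv => ?_⟩
    rw [h.mem_iff, List.mem_range]
    omega

/-- Test: edge-disjointness. -/
def disjB (P Q : List ℕ) : Bool :=
  (P.zip P.tail).all (fun e => !(nxtB Q e.1 e.2) && !(nxtB Q e.2 e.1))

theorem disjB_iff {n : ℕ} {P Q : List ℕ} (hP : P.Perm (List.range n)) :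
    disjB P Q = true ↔ ∀ u v, ¬ ((factor n P).Adj u v ∧ (factor n Q).Adj u v) := by
  have hnd : P.Nodup := hP.nodup_iff.2 List.nodup_range
  unfold disjB
  simp only [List.all_eq_true, Bool.and_eq_true, Bool.not_eq_true', Prod.forall,
    ← Bool.not_eq_true, nxtB_iff, ← nxt_iff_mem_zip]
  constructor
  · rintro h u v ⟨⟨-, h1⟩, ⟨-, h2⟩⟩
    rcases h1 with h1 | h1
    · have := h _ _ h1
      tauto
    · have := h _ _ h1
      tauto
  · intro h a b hab
    have ha : a < n := List.mem_range.1 (hP.mem_iff.1 (nxt_mem_left hab))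
    have hb : b < n := List.mem_range.1 (hP.mem_iff.1 (nxt_mem_right hab))
    have hne : (⟨a, ha⟩ : Fin n) ≠ ⟨b, hb⟩ := fun e => nxt_ne hnd hab (congrArg Fin.val e)
    have h1 : (factor n P).Adj ⟨a, ha⟩ ⟨b, hb⟩ := ⟨hne, Or.inl hab⟩
    exact ⟨fun h2 => h _ _ ⟨h1, hne, Or.inl h2⟩, fun h2 => h _ _ ⟨h1, hne, Or.inr h2⟩⟩

/-- Test: domination. -/
def domB (P w : List ℕ) : Bool :=
  P.all (fun v => decide (v ∈ w) || w.any (fun u => nxtB P u v || nxtB P v u))

/-- The verifier. -/
def ver (k : ℕ) (x : (ℕ × List (List ℕ) × ℕ) × List ℕ) : Bool :=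
  (decide (x.1.2.1.length = k) && x.1.2.1.all (fun P => permB x.1.1 P)) &&
    ((x.1.2.1.zipIdx.all (fun P => x.1.2.1.zipIdx.all (fun Q => !(decide (P.2 < Q.2)) ||
      disjB P.1 Q.1))) &&
    (decide (x.2.length ≤ x.1.2.2) && x.1.2.1.all (fun P => domB P x.2)))

section PolyVer

variable {α : Type} [TEnc α]

theorem poly_zipTail {P : α → List ℕ} (hP : Poly P) : Poly (fun a => (P a).zip (P a).tail) :=
  Poly.zip hP (Poly.tail hP)

theorem poly_nxtB {P : α → List ℕ} {u v : α → ℕ} (hP : Poly P) (hu : Poly u) (hv : Poly v) :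
    Poly (fun a => nxtB (P a) (u a) (v a)) :=
  (Poly.decide_mem (Poly.pair hu hv) (poly_zipTail hP)).congr fun a => by
    unfold nxtB
    exact decide_eq_decide.2 Iff.rfl

theorem poly_permB {n : α → ℕ} {l : α → List ℕ} (hn : Poly n) (hl : Poly l) :
    Poly (fun a => permB (n a) (l a)) :=
  NPC.Poly.and (Poly.decide_eq (Poly.length hl) hn)
    (Poly.all (p := fun a v => decide (v ∈ l a)) (Poly.range_length hl)
      (Poly.decide_mem (Poly.snd Poly.id) (hl.comp (Poly.fst Poly.id))))

theorem poly_disjB {P Q : α → List ℕ} (hP : Poly P) (hQ : Poly Q) :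
    Poly (fun a => disjB (P a) (Q a)) := by
  have h1 : Poly (fun x : α × (ℕ × ℕ) => x.2.1) := Poly.fst (Poly.snd Poly.id)
  have h2 : Poly (fun x : α × (ℕ × ℕ) => x.2.2) := Poly.snd (Poly.snd Poly.id)
  have hQ' : Poly (fun x : α × (ℕ × ℕ) => Q x.1) := hQ.comp (Poly.fst Poly.id)
  exact Poly.all (p := fun a (e : ℕ × ℕ) => !(nxtB (Q a) e.1 e.2) && !(nxtB (Q a) e.2 e.1))
    (poly_zipTail hP) (NPC.Poly.and (NPC.Poly.not (poly_nxtB hQ' h1 h2))
      (NPC.Poly.not (poly_nxtB hQ' h2 h1)))

theorem poly_domB {P w : α → List ℕ} (hP : Poly P) (hw : Poly w) :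
    Poly (fun a => domB (P a) (w a)) := by
  have hv : Poly (fun x : α × ℕ => x.2) := Poly.snd Poly.id
  have hw' : Poly (fun x : α × ℕ => w x.1) := hw.comp (Poly.fst Poly.id)
  refine Poly.all (p := fun a v => decide (v ∈ w a) ||
    (w a).any (fun u => nxtB (P a) u v || nxtB (P a) v u)) hP
    (NPC.Poly.or (Poly.decide_mem hv hw') ?_)
  have hP2 : Poly (fun x : (α × ℕ) × ℕ => P x.1.1) := hP.comp (Poly.fst (Poly.fst Poly.id))
  have hv2 : Poly (fun x : (α × ℕ) × ℕ => x.1.2) := Poly.snd (Poly.fst Poly.id)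
  have hu2 : Poly (fun x : (α × ℕ) × ℕ => x.2) := Poly.snd Poly.id
  exact Poly.any (p := fun (x : α × ℕ) u => nxtB (P x.1) u x.2 || nxtB (P x.1) x.2 u) hw'
    (NPC.Poly.or (poly_nxtB hP2 hu2 hv2) (poly_nxtB hP2 hv2 hu2))

end PolyVer

theorem poly_ver (k : ℕ) : Poly (ver k) := by
  have hL : Poly (fun x : (ℕ × List (List ℕ) × ℕ) × List ℕ => x.1.2.1) :=
    Poly.fst (Poly.snd (Poly.fst Poly.id))
  have hn : Poly (fun x : (ℕ × List (List ℕ) × ℕ) × List ℕ => x.1.1) :=
    Poly.fst (Poly.fst Poly.id)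
  have hM : Poly (fun x : (ℕ × List (List ℕ) × ℕ) × List ℕ => x.1.2.2) :=
    Poly.snd (Poly.snd (Poly.fst Poly.id))
  have hw : Poly (fun x : (ℕ × List (List ℕ) × ℕ) × List ℕ => x.2) := Poly.snd Poly.id
  have q1 : Poly (fun x : (ℕ × List (List ℕ) × ℕ) × List ℕ =>
      x.1.2.1.all (fun P => permB x.1.1 P)) := by
    refine Poly.all (p := fun (x : (ℕ × List (List ℕ) × ℕ) × List ℕ) P => permB x.1.1 P) hL ?_
    exact poly_permB (Poly.fst (Poly.fst (Poly.fst Poly.id))) (Poly.snd Poly.id)
  have q3 : Poly (fun x : (ℕ × List (List ℕ) × ℕ) × List ℕ =>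
      x.1.2.1.all (fun P => domB P x.2)) := by
    refine Poly.all (p := fun (x : (ℕ × List (List ℕ) × ℕ) × List ℕ) P => domB P x.2) hL ?_
    exact poly_domB (Poly.snd Poly.id) (Poly.snd (Poly.fst Poly.id))
  have q2 : Poly (fun x : (ℕ × List (List ℕ) × ℕ) × List ℕ =>
      x.1.2.1.zipIdx.all (fun P => x.1.2.1.zipIdx.all (fun Q => !(decide (P.2 < Q.2)) ||
        disjB P.1 Q.1))) := by
    refine Poly.all (p := fun (x : (ℕ × List (List ℕ) × ℕ) × List ℕ) (P : List ℕ × ℕ) =>
      x.1.2.1.zipIdx.all (fun Q => !(decide (P.2 < Q.2)) || disjB P.1 Q.1)) (Poly.zipIdx hL) ?_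
    have hL2 : Poly (fun y : ((ℕ × List (List ℕ) × ℕ) × List ℕ) × (List ℕ × ℕ) =>
        y.1.1.2.1.zipIdx) :=
      Poly.zipIdx (Poly.fst (Poly.snd (Poly.fst (Poly.fst Poly.id))))
    refine Poly.all (p := fun (y : ((ℕ × List (List ℕ) × ℕ) × List ℕ) × (List ℕ × ℕ))
      (Q : List ℕ × ℕ) => !(decide (y.2.2 < Q.2)) || disjB y.2.1 Q.1) hL2 ?_
    exact NPC.Poly.or (NPC.Poly.not (Poly.decide_lt (Poly.snd (Poly.snd (Poly.fst Poly.id)))
      (Poly.snd (Poly.snd Poly.id))))
      (poly_disjB (Poly.fst (Poly.snd (Poly.fst Poly.id))) (Poly.fst (Poly.snd Poly.id)))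
  exact NPC.Poly.and (NPC.Poly.and (Poly.decide_eq (Poly.length hL) (NPC.Poly.const k)) q1)
    (NPC.Poly.and q2 (NPC.Poly.and (Poly.decide_le (Poly.length hw) hM) q3))

theorem sz_list_lt {l : List ℕ} {n : ℕ} (h : ∀ x ∈ l, x < n) (hl : l.length ≤ n) :
    sz l ≤ n * (4 * n + 2) + 1 := by
  have h3 : sz l ≤ l.length * (4 * n + 1 + 1) + 1 := by
    refine sz_le_length_mul _ _ ?_
    intro v hv
    have e1 := sz_nat_le v
    have e2 := Poly.size_le_self v
    have e3 := h v hv
    omega
  exact h3.trans (Nat.add_le_add_right (Nat.mul_le_mul hl (by omega)) 1)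

theorem ver_iff {k : ℕ} (hk : 1 ≤ k) (x : ℕ × List (List ℕ) × ℕ) : GDk k x ↔ ∃ w : List ℕ,
    sz w ≤ (Polynomial.X * (Polynomial.C 4 * Polynomial.X + 2) + 1 : Polynomial ℕ).eval (sz x) ∧
      ver k (x, w) = true := by
  obtain ⟨n, L, M⟩ := x
  have hpair : (∀ P ∈ L, P.Perm (List.range n)) →
      ((L.zipIdx.all (fun P => L.zipIdx.all (fun Q => !(decide (P.2 < Q.2)) ||
        disjB P.1 Q.1))) = true ↔
      L.Pairwise (fun P Q => ∀ u v, ¬ ((factor n P).Adj u v ∧ (factor n Q).Adj u v))) := by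
    intro hperm
    simp only [List.all_eq_true, Bool.or_eq_true, Bool.not_eq_true', decide_eq_false_iff_not]
    rw [List.pairwise_iff_getElem]
    constructor
    · intro h i j hi hj hij
      have h1 := h (L[i], i) (List.mem_zipIdx_iff_getElem?.2 (List.getElem?_eq_getElem hi))
        (L[j], j) (List.mem_zipIdx_iff_getElem?.2 (List.getElem?_eq_getElem hj))
      rcases h1 with h1 | h1
      · exact (h1 hij).elim
      · exact (disjB_iff (hperm _ (List.getElem_mem hi))).1 h1
    · intro h P hP Q hQ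
      by_cases hlt : P.2 < Q.2
      · right
        have hP' := List.mem_zipIdx_iff_getElem?.1 hP
        have hQ' := List.mem_zipIdx_iff_getElem?.1 hQ
        obtain ⟨hi, eP⟩ := List.getElem?_eq_some_iff.1 hP'
        obtain ⟨hj, eQ⟩ := List.getElem?_eq_some_iff.1 hQ'
        have h1 := h _ _ hi hj hlt
        rw [eP, eQ] at h1
        refine (disjB_iff (hperm _ ?_)).2 h1
        rw [← eP]
        exact List.getElem_mem hi
      · exact Or.inl hlt
  have hadj : ∀ P : List ℕ, P.Perm (List.range n) → ∀ (w : List ℕ),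
      domB P w = true → Dominates (factor n P)
        (Finset.univ.filter (fun v : Fin n => (v : ℕ) ∈ w)) := by
    intro P hP w h v hv
    have hnd : P.Nodup := hP.nodup_iff.2 List.nodup_range
    have hv' : (v : ℕ) ∉ w := by simpa using hv
    unfold domB at h
    simp only [List.all_eq_true, Bool.or_eq_true, decide_eq_true_eq, List.any_eq_true,
      nxtB_iff] at h
    rcases h v (hP.mem_iff.2 (List.mem_range.2 v.2)) with h | ⟨u, hu, h⟩
    · exact (hv' h).elim
    · have hun : u < n := by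
        have : u ∈ P := by
          rcases h with h | h
          · exact nxt_mem_left h
          · exact nxt_mem_right h
        exact List.mem_range.1 (hP.mem_iff.1 this)
      refine ⟨⟨u, hun⟩, by simpa using hu, ?_, h.symm⟩
      rintro rfl
      exact hv' hu
  constructor
  · rintro ⟨h1, h2, h3, D, hD, hdom⟩
    have hn : n < sz ((n, L, M) : ℕ × List (List ℕ) × ℕ) := by
      obtain ⟨P, hP⟩ : ∃ P, P ∈ L := List.exists_mem_of_length_pos (by
        have : L.length = k := h1
        omega)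
      have e1 : P.length = n := by simpa using (h2 P hP).length_eq
      have e2 := length_lt_sz P
      have e3 := sz_le_of_mem hP
      simp only [sz_pair]
      omega
    refine ⟨D.toList.map Fin.val, ?_, ?_⟩
    · have e1 : sz (D.toList.map Fin.val) ≤ n * (4 * n + 2) + 1 := by
        refine sz_list_lt ?_ ?_
        · intro y hy
          rw [List.mem_map] at hy
          obtain ⟨i, _, rfl⟩ := hy
          exact i.2
        · rw [List.length_map, Finset.length_toList]
          simpa using D.card_le_univ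
      have e5 : n * (4 * n + 2) ≤ sz ((n, L, M) : ℕ × List (List ℕ) × ℕ) *
          (4 * sz ((n, L, M) : ℕ × List (List ℕ) × ℕ) + 2) :=
        Nat.mul_le_mul (by omega) (by omega)
      simp only [Polynomial.eval_add, Polynomial.eval_mul, Polynomial.eval_X,
        Polynomial.eval_C, Polynomial.eval_one, Polynomial.eval_ofNat]
      omega
    · unfold ver
      have h4 := (hpair h2).2 h3
      simp only [Bool.and_eq_true, decide_eq_true_eq]
      refine ⟨⟨h1, ?_⟩, h4, ?_, ?_⟩
      · rw [List.all_eq_true]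
        exact fun P hP => permB_iff.2 (h2 P hP)
      · rw [List.length_map, Finset.length_toList]
        exact hD
      · rw [List.all_eq_true]
        intro P hP
        unfold domB
        simp only [List.all_eq_true, Bool.or_eq_true, decide_eq_true_eq, List.any_eq_true,
          nxtB_iff]
        intro v hv
        have hvn : v < n := List.mem_range.1 ((h2 P hP).mem_iff.1 hv)
        by_cases hvD : (⟨v, hvn⟩ : Fin n) ∈ D
        · left
          exact List.mem_map.2 ⟨_, Finset.mem_toList.2 hvD, rfl⟩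
        · obtain ⟨u, hu, -, h⟩ := hdom P hP _ hvD
          exact Or.inr ⟨u, List.mem_map.2 ⟨u, Finset.mem_toList.2 hu, rfl⟩, h.symm⟩
  · rintro ⟨w, -, h⟩
    unfold ver at h
    simp only [Bool.and_eq_true, decide_eq_true_eq] at h
    obtain ⟨⟨h1, h2⟩, h3, h4, h5⟩ := h
    have h2' : ∀ P ∈ L, P.Perm (List.range n) := by
      rw [List.all_eq_true] at h2
      exact fun P hP => permB_iff.1 (h2 P hP)
    refine ⟨h1, h2', (hpair h2').1 h3, Finset.univ.filter (fun v : Fin n => (v : ℕ) ∈ w), ?_, ?_⟩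
    · have e : (Finset.univ.filter (fun v : Fin n => (v : ℕ) ∈ w)).image Fin.val ⊆
          w.toFinset := by
        intro y hy
        rw [Finset.mem_image] at hy
        obtain ⟨i, hi, rfl⟩ := hy
        simpa using hi
      have e2 := Finset.card_le_card e
      rw [Finset.card_image_of_injective _ Fin.val_injective] at e2
      exact (e2.trans (List.toFinset_card_le w)).trans h4
    · intro P hP
      rw [List.all_eq_true] at h5
      exact hadj P (h2' P hP) w (h5 P hP)

/-- **Membership in NP.** -/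
theorem inNP {k : ℕ} (hk : 1 ≤ k) : InNPP (GDk k) :=
  inNPP_of (poly_ver k) _ (ver_iff hk)

end Pool.Agent.H551.GD
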