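import Pool.Agent.H551.GD.Constr

/-!
# Soundness of the reduction
-/

namespace Pool.Agent.H551.GD

open Pool.Agent.NPC

/-! ### Infixes -/

theorem infix_mid {l a b : List ℕ} : l <:+: a ++ (l ++ b) := ⟨a, b, by simp⟩

theorem infix_left {l a b : List ℕ} (h : l <:+: a) : l <:+: a ++ b :=
  h.trans (List.prefix_append _ _).isInfix

theorem infix_right {l a b : List ℕ} (h : l <:+: b) : l <:+: a ++ b :=
  h.trans (List.suffix_append _ _).isInfix

theorem seg1_infix {V L E R x : ℕ} (hx : x < V) :
    blkA E (2 * x) ++ (run L x ++ blkA E (2 * x + 1)) <:+: path1 V L E R :=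
  infix_left (infix_flatMap (f := fun x => blkA E (2 * x) ++ (run L x ++ blkA E (2 * x + 1))) hx)

theorem run_infix {V L E R x : ℕ} (hx : x < V) : run L x <:+: path1 V L E R :=
  (infix_right (infix_left List.infix_rfl)).trans (seg1_infix hx)

theorem blkA_infix {V L E R b : ℕ} (hb : b < 2 * V) : blkA E b <:+: path1 V L E R := by
  have h := seg1_infix (L := L) (E := E) (R := R) (show b / 2 < V by omega)
  have : b = 2 * (b / 2) ∨ b = 2 * (b / 2) + 1 := by omega
  rcases this with h1 | h1
  · rw [← h1] at h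
    exact (infix_left List.infix_rfl).trans h
  · rw [← h1] at h
    exact (infix_right (infix_right List.infix_rfl)).trans h

theorem blkB_infix {V L E R b : ℕ} (hb : 2 * V ≤ b) (hb' : b < 2 * V + R) :
    blkB E b <:+: path1 V L E R := by
  have h := infix_flatMap (f := fun b => blkB E (2 * V + b)) (show b - 2 * V < R by omega)
  have e : 2 * V + (b - 2 * V) = b := by omega
  simp only [e] at h
  exact infix_right h

section P2

variable {V m E R : ℕ} {lt : ℕ → ℕ} {isl : ℕ → Bool}

theorem blkC_infix {b : ℕ} (hb : b < 2 * V) : blkC E b <:+: path2 V m E R lt isl :=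
  infix_left (infix_flatMap hb)

theorem seg2_infix {c : ℕ} (hc : c < m) : blkD E (2 * V + 2 * c) ++
    ([lt (3 * c), lt (3 * c + 1), lt (3 * c + 2)] ++ blkD E (2 * V + 2 * c + 1)) <:+:
      path2 V m E R lt isl :=
  infix_right (infix_left (infix_flatMap (f := fun c => blkD E (2 * V + 2 * c) ++
    ([lt (3 * c), lt (3 * c + 1), lt (3 * c + 2)] ++ blkD E (2 * V + 2 * c + 1))) hc))

theorem clause_infix {c : ℕ} (hc : c < m) :
    [lt (3 * c), lt (3 * c + 1), lt (3 * c + 2)] <:+: path2 V m E R lt isl :=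
  (infix_right (infix_left List.infix_rfl)).trans (seg2_infix hc)

theorem blkD_infix {b : ℕ} (hb : 2 * V ≤ b) (hb' : b < 2 * V + (2 * m + E + R)) :
    blkD E b <:+: path2 V m E R lt isl := by
  by_cases h1 : b < 2 * V + 2 * m
  · have h := seg2_infix (V := V) (E := E) (R := R) (lt := lt) (isl := isl)
      (show (b - 2 * V) / 2 < m by omega)
    have : b = 2 * V + 2 * ((b - 2 * V) / 2) ∨ b = 2 * V + 2 * ((b - 2 * V) / 2) + 1 := by omega
    rcases this with h2 | h2
    · rw [← h2] at h
      exact (infix_left List.infix_rfl).trans h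
    · rw [← h2] at h
      exact (infix_right (infix_right List.infix_rfl)).trans h
  by_cases h2 : b < 2 * V + 2 * m + E
  · have h := infix_flatMap (f := fun r => blkD E (2 * V + 2 * m + r) ++
      (if isl r = true then [] else [r])) (show b - (2 * V + 2 * m) < E by omega)
    have e : 2 * V + 2 * m + (b - (2 * V + 2 * m)) = b := by omega
    simp only [e] at h
    exact ((infix_left List.infix_rfl).trans h).trans
      (infix_right (infix_right (infix_left List.infix_rfl)))
  · have h := infix_flatMap (f := fun b => blkD E (2 * V + 2 * m + E + b))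
      (show b - (2 * V + 2 * m + E) < R by omega)
    have e : 2 * V + 2 * m + E + (b - (2 * V + 2 * m + E)) = b := by omega
    simp only [e] at h
    exact h.trans (infix_right (infix_right (infix_right List.infix_rfl)))

end P2

/-! ### Sums -/

theorem sum_mul (f : ℕ → ℕ) (a n : ℕ) :
    ∑ w ∈ Finset.range (n * a), f w = ∑ i ∈ Finset.range n, ∑ j ∈ Finset.range a, f (i * a + j) := by
  induction n with
  | zero => simp
  | succ n ih => rw [Nat.succ_mul, Finset.sum_range_add, ih, Finset.sum_range_succ]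

/-- The indicator of a vertex set. -/
noncomputable def ind {n : ℕ} (D : Finset (Fin n)) (w : ℕ) : ℕ :=
  open Classical in if ∃ u ∈ D, (u : ℕ) = w then 1 else 0

theorem sum_ind {n : ℕ} (D : Finset (Fin n)) : ∑ w ∈ Finset.range n, ind D w = D.card := by
  classical
  rw [Finset.sum_range]
  have : ∀ i : Fin n, ind D i = if i ∈ D then 1 else 0 := by
    intro i
    unfold ind
    congr 1
    exact propext ⟨fun ⟨u, hu, h⟩ => Fin.ext h ▸ hu, fun h => ⟨i, h, rfl⟩⟩
  rw [Finset.sum_congr rfl (fun i _ => this i), Finset.sum_ite_mem]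
  simp

theorem ind_le {n : ℕ} (D : Finset (Fin n)) (w : ℕ) : ind D w ≤ 1 := by
  unfold ind
  split_ifs <;> omega

theorem ind_pos {n : ℕ} {D : Finset (Fin n)} {w : ℕ} (h : ∃ u ∈ D, (u : ℕ) = w) : ind D w = 1 := by
  unfold ind
  rw [if_pos h]

theorem decomp (f : ℕ → ℕ) {V L E N T : ℕ} (hL : L = 3 * (2 * T) + 1) (hE : E = V * L) :
    ∑ w ∈ Finset.range (E + 4 * N), f w =
      ∑ x ∈ Finset.range V, (∑ i ∈ Finset.range (2 * T), (f (x * L + 3 * i) +
        f (x * L + 3 * i + 1) + f (x * L + 3 * i + 2)) + f (x * L + 6 * T)) +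
      ∑ b ∈ Finset.range N, (f (E + 4 * b) + f (E + 4 * b + 1) + f (E + 4 * b + 2) +
        f (E + 4 * b + 3)) := by
  rw [Finset.sum_range_add]
  congr 1
  · rw [hE, sum_mul]
    refine Finset.sum_congr rfl fun x _ => ?_
    rw [hL, Finset.sum_range_succ, mul_comm 3 (2 * T), sum_mul]
    congr 1
    · refine Finset.sum_congr rfl fun i _ => ?_
      rw [Finset.sum_range_succ, Finset.sum_range_succ, Finset.sum_range_one]
      ring_nf
    · congr 1
      ring
  · rw [mul_comm 4 N, sum_mul]
    refine Finset.sum_congr rfl fun b _ => ?_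
    rw [Finset.sum_range_succ, Finset.sum_range_succ, Finset.sum_range_succ, Finset.sum_range_one]
    ring_nf

theorem eq_of_sum_le {g : ℕ → ℕ} {n c : ℕ} (h : ∀ i < n, c ≤ g i)
    (hs : ∑ i ∈ Finset.range n, g i ≤ n * c) : ∀ i < n, g i = c := by
  have h1 : ∑ i ∈ Finset.range n, c = ∑ i ∈ Finset.range n, g i := by
    refine le_antisymm (Finset.sum_le_sum fun i hi => h i (Finset.mem_range.1 hi)) ?_
    simpa using hs
  intro i hi
  exact ((Finset.sum_eq_sum_iff_of_le fun i hi => h i (Finset.mem_range.1 hi)).1 h1 i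
    (Finset.mem_range.2 hi)).symm

/-- **Soundness**: a small set dominating the first two paths gives a satisfying assignment. -/
theorem sound {m V T L E R n : ℕ} {vr : ℕ → ℕ} {sg : ℕ → Bool} {isl : ℕ → Bool}
    (hT : T = 3 * m) (hL : L = 3 * (2 * T) + 1) (hE : E = V * L) (hvr : ∀ s < T, vr s < V)
    (hn : n = E + 4 * (2 * V + (2 * m + E + R))) (D : Finset (Fin n))
    (hP1 : (path1 V L E (2 * m + E + R)).Perm (List.range n))
    (hP2 : (path2 V m E R (lit T L vr sg) isl).Perm (List.range n))
    (hD1 : Dominates (factor n (path1 V L E (2 * m + E + R))) D)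
    (hD2 : Dominates (factor n (path2 V m E R (lit T L vr sg) isl)) D)
    (hc : D.card ≤ 2 * (2 * V + (2 * m + E + R)) + V * (2 * T)) :
    ∃ τ : ℕ → Bool, ∀ c < m, ∃ r < 3, τ (vr (3 * c + r)) = sg (3 * c + r) := by
  set d := ind D with hd
  set N := 2 * V + (2 * m + E + R) with hN
  have w1 : ∀ a b c, nxt (path1 V L E (2 * m + E + R)) a b →
      nxt (path1 V L E (2 * m + E + R)) b c → 1 ≤ d a + d b + d c := by
    intro a b c h1 h2
    obtain ⟨u, hu, h⟩ := window hP1 hD1 h1 h2
    rcases h with h | h | h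
    · have h3 : d a = 1 := ind_pos ⟨u, hu, h⟩
      omega
    · have h3 : d b = 1 := ind_pos ⟨u, hu, h⟩
      omega
    · have h3 : d c = 1 := ind_pos ⟨u, hu, h⟩
      omega
  have w2 : ∀ a b c, nxt (path2 V m E R (lit T L vr sg) isl) a b →
      nxt (path2 V m E R (lit T L vr sg) isl) b c → 1 ≤ d a + d b + d c := by
    intro a b c h1 h2
    obtain ⟨u, hu, h⟩ := window hP2 hD2 h1 h2
    rcases h with h | h | h
    · have h3 : d a = 1 := ind_pos ⟨u, hu, h⟩
      omega
    · have h3 : d b = 1 := ind_pos ⟨u, hu, h⟩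
      omega
    · have h3 : d c = 1 := ind_pos ⟨u, hu, h⟩
      omega
  have hblk : ∀ b < N, 2 ≤ d (E + 4 * b) + d (E + 4 * b + 1) + d (E + 4 * b + 2) +
      d (E + 4 * b + 3) := by
    intro b hb
    by_cases h : b < 2 * V
    · have hA := blkA_infix (V := V) (L := L) (E := E) (R := 2 * m + E + R) h
      have hC := blkC_infix (V := V) (m := m) (E := E) (R := R) (lt := lit T L vr sg)
        (isl := isl) h
      have a1 := w1 (E + 4 * b) (E + 4 * b + 2) (E + 4 * b + 3)
        (nxt_infix hA (by simp [blkA, nxt_cons_cons]))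
        (nxt_infix hA (by simp [blkA, nxt_cons_cons]))
      have a2 := w1 (E + 4 * b + 2) (E + 4 * b + 3) (E + 4 * b + 1)
        (nxt_infix hA (by simp [blkA, nxt_cons_cons]))
        (nxt_infix hA (by simp [blkA, nxt_cons_cons]))
      have a3 := w2 (E + 4 * b + 3) (E + 4 * b) (E + 4 * b + 1)
        (nxt_infix hC (by simp [blkC, nxt_cons_cons]))
        (nxt_infix hC (by simp [blkC, nxt_cons_cons]))
      have a4 := w2 (E + 4 * b) (E + 4 * b + 1) (E + 4 * b + 2)
        (nxt_infix hC (by simp [blkC, nxt_cons_cons]))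
        (nxt_infix hC (by simp [blkC, nxt_cons_cons]))
      omega
    · have hB := blkB_infix (V := V) (L := L) (E := E) (R := 2 * m + E + R)
        (show 2 * V ≤ b by omega) (by omega)
      have hC := blkD_infix (V := V) (m := m) (E := E) (R := R) (lt := lit T L vr sg)
        (isl := isl) (show 2 * V ≤ b by omega) (by omega)
      have a1 := w1 (E + 4 * b + 2) (E + 4 * b) (E + 4 * b + 1)
        (nxt_infix hB (by simp [blkB, nxt_cons_cons]))
        (nxt_infix hB (by simp [blkB, nxt_cons_cons]))
      have a2 := w1 (E + 4 * b) (E + 4 * b + 1) (E + 4 * b + 3)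
        (nxt_infix hB (by simp [blkB, nxt_cons_cons]))
        (nxt_infix hB (by simp [blkB, nxt_cons_cons]))
      have a3 := w2 (E + 4 * b + 1) (E + 4 * b + 2) (E + 4 * b + 3)
        (nxt_infix hC (by simp [blkD, nxt_cons_cons]))
        (nxt_infix hC (by simp [blkD, nxt_cons_cons]))
      have a4 := w2 (E + 4 * b + 2) (E + 4 * b + 3) (E + 4 * b)
        (nxt_infix hC (by simp [blkD, nxt_cons_cons]))
        (nxt_infix hC (by simp [blkD, nxt_cons_cons]))
      omega
  have hrun : ∀ x < V, ∀ p, p + 2 < L → 1 ≤ d (x * L + p) + d (x * L + p + 1) +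
      d (x * L + p + 2) := by
    intro x hx p hp
    have hr := run_infix (V := V) (L := L) (E := E) (R := 2 * m + E + R) hx
    exact w1 _ _ _ (nxt_infix hr (nxt_run.2 ⟨p, by omega, rfl, rfl⟩))
      (nxt_infix hr (nxt_run.2 ⟨p + 1, by omega, by omega, by omega⟩))
  have hrun' : ∀ x < V, ∀ a b c p, p + 2 < L → a = x * L + p → b = x * L + p + 1 →
      c = x * L + p + 2 → 1 ≤ d a + d b + d c := by
    rintro x hx a b c p hp rfl rfl rfl
    exact hrun x hx p hp
  have hcell : ∀ x < V, 2 * T ≤ ∑ i ∈ Finset.range (2 * T), (d (x * L + 3 * i) +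
      d (x * L + 3 * i + 1) + d (x * L + 3 * i + 2)) := by
    intro x hx
    have : ∑ i ∈ Finset.range (2 * T), 1 ≤ ∑ i ∈ Finset.range (2 * T), (d (x * L + 3 * i) +
        d (x * L + 3 * i + 1) + d (x * L + 3 * i + 2)) := by
      refine Finset.sum_le_sum fun i hi => ?_
      have hi' := Finset.mem_range.1 hi
      exact hrun x hx (3 * i) (by omega)
    simpa using this
  have htot := sum_ind D
  rw [← hd, show Finset.range n = Finset.range (E + 4 * N) by rw [hn],
    decomp d hL hE (N := N)] at htot
  have hb2 : 2 * N ≤ ∑ b ∈ Finset.range N, (d (E + 4 * b) + d (E + 4 * b + 1) +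
      d (E + 4 * b + 2) + d (E + 4 * b + 3)) := by
    have : ∑ b ∈ Finset.range N, 2 ≤ ∑ b ∈ Finset.range N, (d (E + 4 * b) + d (E + 4 * b + 1) +
        d (E + 4 * b + 2) + d (E + 4 * b + 3)) :=
      Finset.sum_le_sum fun b hb => hblk b (Finset.mem_range.1 hb)
    simpa [mul_comm] using this
  have hx1 : ∀ x < V, ∑ i ∈ Finset.range (2 * T), (d (x * L + 3 * i) +
      d (x * L + 3 * i + 1) + d (x * L + 3 * i + 2)) + d (x * L + 6 * T) = 2 * T :=
    eq_of_sum_le (fun x hx => (hcell x hx).trans (Nat.le_add_right _ _)) (by omega)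
  have hlast : ∀ x < V, d (x * L + 6 * T) = 0 := by
    intro x hx
    have := hx1 x hx
    have := hcell x hx
    omega
  have hone : ∀ x < V, ∀ i < 2 * T, d (x * L + 3 * i) + d (x * L + 3 * i + 1) +
      d (x * L + 3 * i + 2) = 1 := by
    intro x hx
    refine eq_of_sum_le (fun i hi => hrun x hx (3 * i) (by omega)) ?_
    have := hx1 x hx
    omega
  have hzero : ∀ x < V, ∀ j < 2 * T, d (x * L + 3 * (2 * T - 1 - j)) = 0 := by
    intro x hx j
    induction j with
    | zero =>
      intro hj
      have h1 := hrun' x hx (x * L + 3 * (2 * T - 1) + 1) (x * L + 3 * (2 * T - 1) + 2)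
        (x * L + 6 * T) (3 * (2 * T - 1) + 1) (by omega) (by omega) (by omega) (by omega)
      have h2 := hone x hx (2 * T - 1) (by omega)
      have h3 := hlast x hx
      rw [Nat.sub_zero]
      omega
    | succ j ih =>
      intro hj
      have h1 := hrun' x hx (x * L + 3 * (2 * T - 1 - (j + 1)) + 1)
        (x * L + 3 * (2 * T - 1 - (j + 1)) + 2) (x * L + 3 * (2 * T - 1 - j))
        (3 * (2 * T - 1 - (j + 1)) + 1) (by omega) (by omega) (by omega) (by omega)
      have h2 := hone x hx (2 * T - 1 - (j + 1)) (by omega)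
      have h3 := ih (by omega)
      omega
  have hzero' : ∀ x < V, ∀ i < 2 * T, d (x * L + 3 * i) = 0 := by
    intro x hx i hi
    have := hzero x hx (2 * T - 1 - i) (by omega)
    rwa [show 2 * T - 1 - (2 * T - 1 - i) = i by omega] at this
  have hmono : ∀ x < V, ∀ i j, i ≤ j → j < 2 * T → d (x * L + 3 * i + 1) = 1 →
      d (x * L + 3 * j + 1) = 1 := by
    intro x hx i j hij
    induction j, hij using Nat.le_induction with
    | base => intro _ h; exact h
    | succ j hij ih =>
      intro hj h
      have h1 := ih (by omega) h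
      have h2 := hone x hx j (by omega)
      have h3 := hrun' x hx (x * L + 3 * j + 2) (x * L + 3 * (j + 1)) (x * L + 3 * (j + 1) + 1)
        (3 * j + 2) (by omega) (by omega) (by omega) (by omega)
      have h4 := hzero' x hx (j + 1) hj
      have h5 := ind_le D (x * L + 3 * (j + 1) + 1)
      rw [← hd] at h5
      omega
  refine ⟨fun x => decide (d (x * L + 3 * T + 1) = 1), fun c hc' => ?_⟩
  have hcl := clause_infix (V := V) (m := m) (E := E) (R := R) (lt := lit T L vr sg)
    (isl := isl) hc'
  have h := w2 (lit T L vr sg (3 * c)) (lit T L vr sg (3 * c + 1)) (lit T L vr sg (3 * c + 2))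
    (nxt_infix hcl (by simp [nxt_cons_cons])) (nxt_infix hcl (by simp [nxt_cons_cons]))
  have key : ∀ s < T, d (lit T L vr sg s) = 1 →
      decide (d (vr s * L + 3 * T + 1) = 1) = sg s := by
    intro s hs h1
    have hx := hvr s hs
    unfold lit at h1
    cases hsg : sg s with
    | true =>
      rw [if_pos hsg] at h1
      rw [decide_eq_true_eq]
      have e : vr s * L + (3 * s + 1) = vr s * L + 3 * s + 1 := by omega
      rw [e] at h1
      exact hmono _ hx s T (by omega) (by omega) h1
    | false =>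
      rw [if_neg (by rw [hsg]; simp)] at h1
      rw [decide_eq_false_iff_not]
      intro h2
      have h3 := hmono _ hx T (T + s) (by omega) (by omega) h2
      have h4 := hone _ hx (T + s) (by omega)
      have e : vr s * L + (3 * (T + s) + 2) = vr s * L + 3 * (T + s) + 2 := by omega
      rw [e] at h1
      omega
  have g0 := ind_le D (lit T L vr sg (3 * c))
  have g1 := ind_le D (lit T L vr sg (3 * c + 1))
  have g2 := ind_le D (lit T L vr sg (3 * c + 2))
  rw [← hd] at g0 g1 g2
  have : d (lit T L vr sg (3 * c)) = 1 ∨ d (lit T L vr sg (3 * c + 1)) = 1 ∨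
      d (lit T L vr sg (3 * c + 2)) = 1 := by omega
  rcases this with h | h | h
  · exact ⟨0, by omega, key _ (by omega) h⟩
  · exact ⟨1, by omega, key _ (by omega) h⟩
  · exact ⟨2, by omega, key _ (by omega) h⟩

end Pool.Agent.H551.GD
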